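import Pool.Agent.Lib.MP_a20de0_al.CDN.NoLoop
import Pool.Agent.Lib.MP_a20de0_al.CDC.XMod

set_option autoImplicit false

/-! CDN-Cover.  `J e_i` is the image of a sum of modules `A e_j`, `j ≠ i`.  Let `W = ∑_{j ≠ i} A e_j J e_i`, a submodule of `J e_i`.
`x ∈ J e_i`: `x = e_i x + ∑_{j ≠ i} e_j x`, `e_i x = e_i x e_i ∈ J^2` (`no_loop`), so `J e_i = W + J (J e_i)`; `J` is nilpotent, so `W = J e_i` (Nakayama).
`W` is generated by finitely many elements `e_j x_t`, `x_t ∈ J e_i`, `j ≠ i` (a basis of `J e_i` over `k`): `CDC.exists_map`. -/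

namespace Pool.Agent.CDN

/-- the induction: `J e_i ⊆ W + J^m` for all `m` -/
private theorem cover_ind {A : Type} [Ring A] {n : ℕ} {e : Fin n → A} (hsum : ∑ j, e j = 1) (i : Fin n)
    (hi : IsIdempotentElem (e i)) (W : Ideal A)
    (hW : ∀ j, j ≠ i → ∀ x ∈ (⊥ : Ideal A).jacobson, e j * (x * e i) ∈ W)
    (hJ : ∀ x ∈ (⊥ : Ideal A).jacobson, e i * (x * e i) ∈ J2 A) (m : ℕ) :
    ∀ x ∈ (⊥ : Ideal A).jacobson, x * e i ∈ W ⊔ ((⊥ : Ideal A).jacobson) ^ m := by
  induction m with
  | zero =>
    intro x _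
    have h1 : ((⊥ : Ideal A).jacobson) ^ 0 = ⊤ := by
      rw [Submodule.pow_zero, Ideal.one_eq_top]
    rw [h1, sup_top_eq]
    exact Submodule.mem_top
  | succ m ih =>
    have hstep : ∀ w ∈ J2 A, w * e i ∈ W ⊔ ((⊥ : Ideal A).jacobson) ^ (m + 1) := by
      intro w hw
      unfold J2 at hw
      induction hw using AddSubgroup.closure_induction with
      | mem w hw =>
        obtain ⟨y, z, hy, hz, rfl⟩ := hw
        obtain ⟨w1, hw1, r, hr, h1⟩ := Submodule.mem_sup.1 (ih z hz)
        rw [mul_assoc, ← h1, mul_add]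
        refine Submodule.add_mem_sup (W.smul_mem y hw1) ?_
        rw [Ideal.IsTwoSided.pow_succ]
        exact Ideal.mul_mem_mul hy hr
      | zero =>
        rw [zero_mul]
        exact Submodule.zero_mem _
      | add a b _ _ ha hb =>
        rw [add_mul]
        exact Submodule.add_mem _ ha hb
      | neg a _ ha =>
        rw [neg_mul]
        exact Submodule.neg_mem _ ha
    intro x hx
    have h1 : x * e i = ∑ j, e j * (x * e i) := by
      rw [← Finset.sum_mul, hsum, one_mul]
    rw [h1]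
    refine Submodule.sum_mem _ fun j _ => ?_
    by_cases hj : j = i
    · subst hj
      have h2 := hstep _ (hJ x hx)
      have h3 : e j * (x * e j) * e j = e j * (x * e j) := by
        rw [mul_assoc, mul_assoc, hi.eq]
      rw [h3] at h2
      exact h2
    · exact Submodule.mem_sup_left (hW j hj x hx)

theorem cover {k : Type} [Field k] {A : Type} [Ring A] [Algebra k A] [Module.Finite k A] {n : ℕ} {e : Fin n → A}
    (h : Elem k e) (hgl : CDC.FinGl A) (i : Fin n) :
    ∃ (r : ℕ) (σ : Fin r → Fin n) (u : CDC.XM e σ →ₗ[A] CDC.Le (e i)), (∀ t, σ t ≠ i) ∧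
      ∀ x : CDC.Le (e i), x ∈ LinearMap.range u ↔ (x : A) ∈ (⊥ : Ideal A).jacobson := by
  classical
  have : IsArtinianRing A := IsArtinianRing.of_finite k A
  let V : Submodule k A :=
    { carrier := {x | x ∈ (⊥ : Ideal A).jacobson ∧ x * e i = x}
      add_mem' := fun {a b} ha hb => ⟨Ideal.add_mem _ ha.1 hb.1, by rw [add_mul, ha.2, hb.2]⟩
      zero_mem' := ⟨Ideal.zero_mem _, zero_mul _⟩
      smul_mem' := fun c x hx => ⟨by
        rw [Algebra.smul_def]
        exact Ideal.mul_mem_left _ _ hx.1, by rw [smul_mul_assoc, hx.2]⟩ }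
  obtain ⟨N, y, hy⟩ := Module.Finite.exists_fin (R := k) (M := V)
  have hyi : ∀ s, ((y s : V) : A) * e i = y s := fun s => (y s).2.2
  have hyJ : ∀ s, ((y s : V) : A) ∈ (⊥ : Ideal A).jacobson := fun s => (y s).2.1
  let q : Fin (Fintype.card ({j // j ≠ i} × Fin N)) ≃ {j // j ≠ i} × Fin N := (Fintype.equivFin _).symm
  obtain ⟨u, hu⟩ := CDC.exists_map h.idem (M := CDC.Le (e i)) (fun t => ((q t).1 : Fin n))
    (fun t => (⟨e (q t).1 * (y (q t).2 : A), Submodule.mem_span_singleton.2 ⟨e (q t).1 * (y (q t).2 : A), by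
      rw [smul_eq_mul, mul_assoc, hyi]⟩⟩ : CDC.Le (e i)))
    (fun t => Subtype.ext (by
      change e (q t).1 * (e (q t).1 * (y (q t).2 : A)) = _
      rw [← mul_assoc, (h.idem _).eq]))
  have hu' : ∀ x, ((u x : CDC.Le (e i)) : A) = ∑ t, (x t : A) * (e (q t).1 * (y (q t).2 : A)) := by
    intro x
    rw [hu, AddSubmonoidClass.coe_finsetSum]
    rfl
  refine ⟨_, _, u, fun t => (q t).1.2, fun x => ⟨?_, fun hx => ?_⟩⟩
  · rintro ⟨z, rfl⟩
    rw [hu']
    exact Submodule.sum_mem _ fun t _ => Ideal.mul_mem_left _ _ (Ideal.mul_mem_left _ _ (hyJ _))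
  · let W : Ideal A := LinearMap.range ((Submodule.subtype (Submodule.span A ({e i} : Set A))) ∘ₗ u)
    have hW : ∀ j, j ≠ i → ∀ x ∈ (⊥ : Ideal A).jacobson, e j * (x * e i) ∈ W := by
      intro j hj x hx
      have hgen : ∀ s, e j * (y s : A) ∈ W := by
        intro s
        obtain ⟨t, ht⟩ := q.surjective (⟨j, hj⟩, s)
        refine ⟨Pi.single t ⟨e (q t).1, Submodule.mem_span_singleton_self _⟩, ?_⟩
        change ((u _ : CDC.Le (e i)) : A) = _
        rw [hu', Finset.sum_eq_single t]
        · rw [Pi.single_eq_same]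
          change e (q t).1 * (e (q t).1 * (y (q t).2 : A)) = _
          rw [← mul_assoc, (h.idem _).eq, ht]
        · intro t' _ ht'
          rw [Pi.single_eq_of_ne ht']
          change (0 : A) * _ = _
          rw [zero_mul]
        · intro h0
          exact absurd (Finset.mem_univ t) h0
      have hxV : x * e i ∈ V := ⟨Ideal.mul_mem_right _ _ hx, by rw [mul_assoc, (h.idem i).eq]⟩
      have hspan : (⟨x * e i, hxV⟩ : V) ∈ Submodule.span k (Set.range y) := by
        rw [hy]
        exact Submodule.mem_top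
      have key : ∀ v : V, v ∈ Submodule.span k (Set.range y) → e j * (v : A) ∈ W := by
        intro v hv
        induction hv using Submodule.span_induction with
        | mem v hv =>
          obtain ⟨s, rfl⟩ := hv
          exact hgen s
        | zero =>
          change e j * (0 : A) ∈ W
          rw [mul_zero]
          exact W.zero_mem
        | add a b _ _ ha hb =>
          change e j * ((a : A) + (b : A)) ∈ W
          rw [mul_add]
          exact W.add_mem ha hb
        | smul c a _ ha =>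
          change e j * (c • (a : A)) ∈ W
          rw [mul_smul_comm, Algebra.smul_def]
          exact W.smul_mem _ ha
      exact key _ hspan
    have hJ : ∀ x ∈ (⊥ : Ideal A).jacobson, e i * (x * e i) ∈ J2 A := by
      intro x hx
      refine no_loop h hgl i (Ideal.mul_mem_left _ _ (Ideal.mul_mem_right _ _ hx)) ?_
      rw [← mul_assoc, ← mul_assoc, (h.idem i).eq, ← mul_assoc, mul_assoc _ (e i) (e i), (h.idem i).eq]
    obtain ⟨m, hm⟩ := IsArtinianRing.isNilpotent_jacobson_bot (R := A)
    have h1 := cover_ind h.sum i (h.idem i) W hW hJ m x.1 hx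
    rw [hm] at h1
    have h2 : W ⊔ (0 : Ideal A) = W := by
      rw [Submodule.zero_eq_bot, sup_bot_eq]
    rw [h2] at h1
    have h3 : (x : A) * e i = x := by
      obtain ⟨c, hc⟩ := Submodule.mem_span_singleton.1 x.2
      rw [← hc, smul_eq_mul, mul_assoc, (h.idem i).eq]
    rw [h3] at h1
    obtain ⟨z, hz⟩ := h1
    exact ⟨z, Subtype.ext hz⟩

end Pool.Agent.CDN
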