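import Pool.Agent.Lib.MP_a20de0_al.CDN.Defs

set_option autoImplicit false

/-! CDN-Cyc.  `ftr (g ∘ f) = ftr (f ∘ g)`: with `f δ_t = ∑_u F_tu δ_u`, `g δ_u = ∑_t G_ut δ_t` the two sums are
`∑ F_tu G_ut` and `∑ G_ut F_tu`, equal modulo commutators. -/

namespace Pool.Agent.CDN

variable {A : Type} [Ring A]

theorem cl_comm (a b : A) : cl (a * b) = cl (b * a) := by
  unfold cl
  rw [QuotientAddGroup.eq]
  refine AddSubgroup.subset_closure ⟨b, a, ?_⟩
  abel

theorem cl_add (a b : A) : cl (a + b) = cl a + cl b := by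
  rfl

theorem cl_eq_zero {a : A} : cl a = 0 ↔ a ∈ Com A := by
  exact QuotientAddGroup.eq_zero_iff a

private theorem cyc_cl_sum {ι : Type} (s : Finset ι) (a : ι → A) : cl (∑ i ∈ s, a i) = ∑ i ∈ s, cl (a i) :=
  map_sum (QuotientAddGroup.mk' (Com A)) a s

private theorem cyc_expand {r s : ℕ} (g : (Fin s → A) →ₗ[A] (Fin r → A)) (v : Fin s → A) :
    g v = ∑ u, v u • g (Pi.single u 1) := by
  have h1 : v = ∑ u, v u • (Pi.single u (1 : A) : Fin s → A) := by
    funext j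
    simp [Finset.sum_apply, Pi.single_apply]
  conv_lhs => rw [h1]
  rw [map_sum]
  refine Finset.sum_congr rfl fun u _ => ?_
  rw [map_smul]

private theorem cyc_sum {r s : ℕ} (f : (Fin r → A) →ₗ[A] (Fin s → A)) (g : (Fin s → A) →ₗ[A] (Fin r → A)) :
    ftr (g ∘ₗ f) = ∑ t, ∑ u, cl (f (Pi.single t 1) u * g (Pi.single u 1) t) := by
  unfold ftr
  rw [cyc_cl_sum]
  refine Finset.sum_congr rfl fun t _ => ?_
  rw [LinearMap.comp_apply, cyc_expand g (f (Pi.single t 1)), Finset.sum_apply, cyc_cl_sum]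
  rfl

theorem ftr_cyc {r s : ℕ} (f : (Fin r → A) →ₗ[A] (Fin s → A)) (g : (Fin s → A) →ₗ[A] (Fin r → A)) :
    ftr (g ∘ₗ f) = ftr (f ∘ₗ g) := by
  rw [cyc_sum, cyc_sum, Finset.sum_comm]
  exact Finset.sum_congr rfl fun u _ => Finset.sum_congr rfl fun t _ => cl_comm _ _

theorem ftr_add {r : ℕ} (f g : (Fin r → A) →ₗ[A] (Fin r → A)) : ftr (f + g) = ftr f + ftr g := by
  unfold ftr
  rw [← cl_add, ← Finset.sum_add_distrib]
  rfl

end Pool.Agent.CDN
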