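import Pool.Agent.Lib.MP_a20de0_al.CDC.Defs

set_option autoImplicit false

/-! Board CDN (MP_a20de0_al): definitions.  Paper: /team-store/CDN_paper.md -/

namespace Pool.Agent.CDN

/-- the additive subgroup generated by the commutators -/
def Com (A : Type) [Ring A] : AddSubgroup A := AddSubgroup.closure {x | ∃ a b : A, x = a * b - b * a}

/-- the class of `a` in `A / [A,A]` -/
def cl {A : Type} [Ring A] (a : A) : A ⧸ Com A := QuotientAddGroup.mk a

/-- trace of an endomorphism of a free module -/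
def ftr {A : Type} [Ring A] {r : ℕ} (f : (Fin r → A) →ₗ[A] (Fin r → A)) : A ⧸ Com A :=
  cl (∑ s, f (Pi.single s 1) s)

/-- `t` is the trace (Hattori–Stallings) of the endomorphism `g` of the finitely generated projective module `P`. -/
def IsTr {A : Type} [Ring A] (P : Type) [AddCommGroup P] [Module A P] (g : P →ₗ[A] P) (t : A ⧸ Com A) : Prop :=
  ∃ (r : ℕ) (i : P →ₗ[A] (Fin r → A)) (p : (Fin r → A) →ₗ[A] P), (∀ x, p (i x) = x) ∧
    t = ftr (i ∘ₗ g ∘ₗ p)

/-- the endomorphism of `ker π` induced by `g` -/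
def kerRes {A : Type} [Ring A] {P M : Type} [AddCommGroup P] [Module A P] [AddCommGroup M] [Module A M]
    (π : P →ₗ[A] M) (g : P →ₗ[A] P) (f : M →ₗ[A] M) (h : ∀ x, π (g x) = f (π x)) :
    LinearMap.ker π →ₗ[A] LinearMap.ker π :=
  g.restrict (fun x hx => by
    rw [LinearMap.mem_ker] at hx ⊢
    rw [h, hx, map_zero])

/-- `t` is the trace of the endomorphism `f` of `M`, computed by a resolution of length `k`. -/
def Tr {A : Type} [Ring A] : ℕ → (M : Type) → [AddCommGroup M] → [Module A M] → (M →ₗ[A] M) → A ⧸ Com A → Prop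
  | 0, M, _, _, _, t => Subsingleton M ∧ t = 0
  | k + 1, M, _, _, f, t => ∃ (P : Type) (_ : AddCommGroup P) (_ : Module A P) (π : P →ₗ[A] M) (g : P →ₗ[A] P)
      (h : ∀ x, π (g x) = f (π x)) (tP s : A ⧸ Com A), Function.Surjective π ∧ IsTr P g tP ∧
        Tr k (LinearMap.ker π) (kerRes π g f h) s ∧ t = tP - s

/-- `A` is elementary with the idempotents `e_i`: `A = ⊕ k e_i + J`. -/
structure Elem (k : Type) [Field k] {A : Type} [Ring A] [Algebra k A] {n : ℕ} (e : Fin n → A) : Prop where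
  idem : ∀ i, IsIdempotentElem (e i)
  ne : ∀ i, e i ≠ 0
  orth : ∀ i j, i ≠ j → e i * e j = 0
  sum : ∑ i, e i = 1
  elem : ∀ a : A, ∃ c : Fin n → k, a - ∑ i, c i • e i ∈ (⊥ : Ideal A).jacobson

/-- the additive group `J^2` -/
def J2 (A : Type) [Ring A] : AddSubgroup A :=
  AddSubgroup.closure {w | ∃ y z : A, y ∈ (⊥ : Ideal A).jacobson ∧ z ∈ (⊥ : Ideal A).jacobson ∧ w = y * z}

end Pool.Agent.CDN
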