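import Pool.Agent.Lib.MP_a20de0_al.CDN.Defs

set_option autoImplicit false

/-! CDN-El.  Elementary algebras.  `J` is a two-sided nilpotent ideal (finite-dimensional algebra).
`el_rad`: multiply `a = ∑ c_l e_l + J` by `e_i` and `e_j`.  `el_loc`: `x = e_i x e_i = c e_i + y`, `y ∈ J`; `c = 0`: nilpotent; `c ≠ 0`: unit of `e_i A e_i` (geometric series). -/

namespace Pool.Agent.CDN

variable {k : Type} [Field k] {A : Type} [Ring A] [Algebra k A] {n : ℕ} {e : Fin n → A}

private theorem el_mid (h : Elem k e) (i j : Fin n) (c : Fin n → k) :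
    e i * (∑ l, c l • e l) * e j = if i = j then c i • e i else 0 := by
  have h1 : e i * (∑ l, c l • e l) = c i • e i := by
    rw [Finset.mul_sum, Finset.sum_eq_single i]
    · rw [mul_smul_comm, (h.idem i).eq]
    · intro l _ hl
      rw [mul_smul_comm, h.orth i l hl.symm, smul_zero]
    · intro h0
      exact absurd (Finset.mem_univ _) h0
  rw [h1, smul_mul_assoc]
  split_ifs with hij
  · subst hij
    rw [(h.idem i).eq]
  · rw [h.orth i j hij, smul_zero]

private theorem el_sandwich {y : A} (hy : y ∈ (⊥ : Ideal A).jacobson) (a b : A) : a * y * b ∈ (⊥ : Ideal A).jacobson :=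
  Ideal.mul_mem_right _ _ (Ideal.mul_mem_left _ _ hy)

theorem el_scalar (h : Elem k e) (i : Fin n) (a : A) : ∃ c : k, e i * a * e i - c • e i ∈ (⊥ : Ideal A).jacobson := by
  obtain ⟨c, hc⟩ := h.elem a
  refine ⟨c i, ?_⟩
  have h1 : e i * a * e i - c i • e i = e i * (a - ∑ l, c l • e l) * e i := by
    rw [mul_sub, sub_mul, el_mid h, if_pos rfl]
  rw [h1]
  exact el_sandwich hc _ _

theorem el_rad (h : Elem k e) (i j : Fin n) (hij : i ≠ j) (a : A) : e i * a * e j ∈ (⊥ : Ideal A).jacobson := by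
  obtain ⟨c, hc⟩ := h.elem a
  have h1 : e i * a * e j = e i * (a - ∑ l, c l • e l) * e j := by
    rw [mul_sub, sub_mul, el_mid h, if_neg hij, sub_zero]
  rw [h1]
  exact el_sandwich hc _ _

theorem jac_nilp [Module.Finite k A] {x : A} (hx : x ∈ (⊥ : Ideal A).jacobson) : IsNilpotent x := by
  haveI : IsArtinianRing A := IsArtinianRing.of_finite k A
  obtain ⟨m, hm⟩ := IsArtinianRing.isNilpotent_jacobson_bot (R := A)
  refine ⟨m, ?_⟩
  have h1 : x ^ m ∈ ((⊥ : Ideal A).jacobson) ^ m := Ideal.pow_mem_pow hx m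
  rw [hm] at h1
  simpa using h1

theorem el_loc [Module.Finite k A] (h : Elem k e) (i : Fin n) : CDC.Loc (e i) := by
  refine ⟨h.ne i, fun x hx => ?_⟩
  obtain ⟨c, hc⟩ := el_scalar h i x
  rw [hx] at hc
  by_cases hc0 : c = 0
  · right
    rw [hc0, zero_smul, sub_zero] at hc
    exact jac_nilp (k := k) hc
  left
  have he : e i * e i = e i := (h.idem i).eq
  have hex : e i * x = x := by
    rw [← hx, ← mul_assoc, ← mul_assoc, he]
  have hxe : x * e i = x := by
    rw [← hx, mul_assoc, he]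
  obtain ⟨z, hz⟩ : ∃ z, z = c⁻¹ • x - e i := ⟨_, rfl⟩
  have hzn : IsNilpotent z := by
    have h1 : z = algebraMap k A c⁻¹ * (x - c • e i) := by
      rw [hz, ← Algebra.smul_def, smul_sub, smul_smul, inv_mul_cancel₀ hc0, one_smul]
    rw [h1]
    exact jac_nilp (k := k) (Ideal.mul_mem_left _ _ hc)
  have hxz : x = c • (e i + z) := by
    rw [hz, add_sub_cancel, smul_smul, mul_inv_cancel₀ hc0, one_smul]
  have hez : e i * z = z := by
    rw [hz, mul_sub, mul_smul_comm, hex, he]
  have hze : z * e i = z := by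
    rw [hz, sub_mul, smul_mul_assoc, hxe, he]
  obtain ⟨u, hu⟩ := hzn.isUnit_one_add
  have hcomm : e i * (↑u : A) = ↑u * e i := by
    rw [hu, mul_add, add_mul, mul_one, one_mul, hez, hze]
  have hcomm' : e i * (↑u⁻¹ : A) = ↑u⁻¹ * e i := by
    have h1 : Commute (e i) (↑u : A) := hcomm
    exact h1.units_inv_right
  have hez1 : e i + z = e i * ↑u := by
    rw [hu, mul_add, mul_one, hez]
  refine ⟨c⁻¹ • (e i * ↑u⁻¹), ?_, ?_, ?_⟩
  · rw [mul_smul_comm, smul_mul_assoc, ← mul_assoc, he, mul_assoc, ← hcomm', ← mul_assoc, he]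
  · rw [hxz, smul_mul_smul_comm, mul_inv_cancel₀ hc0, one_smul, hez1, hcomm, mul_assoc, ← mul_assoc (e i), he, hcomm',
      ← mul_assoc, Units.mul_inv, one_mul]
  · rw [hxz, smul_mul_smul_comm, inv_mul_cancel₀ hc0, one_smul, hez1, hcomm', mul_assoc, ← mul_assoc (e i), he, hcomm,
      ← mul_assoc, Units.inv_mul, one_mul]

end Pool.Agent.CDN
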