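import Pool.Agent.Lib.MP_a20de0_al.CDC.Defs

set_option autoImplicit false

/-! CDN-Soc.  If `gldim A ≤ 3`, some simple module has projective dimension `≤ 2`: a simple left ideal `S` of `A` (`A` Artinian, nonzero),
`0 → S → A → A ⧸ S → 0`, `A` projective.
`cramer_pos`: pure linear algebra (`Matrix.cramer`, or expand the determinant of `M` with column `i` replaced by `∑ x_j M_j = δ_i`). -/

namespace Pool.Agent.CDN
open CategoryTheory

theorem exists_pd2 {A : Type} [Ring A] [IsArtinianRing A] [Nontrivial A]
    (h3 : ∀ M : ModuleCat.{0} A, HasProjectiveDimensionLT M 4) :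
    ∃ N : ModuleCat.{0} A, IsSimpleModule A N ∧ HasProjectiveDimensionLT N 3 := by
  have : IsAtomic (Submodule A A) := inferInstance
  obtain ⟨S, hS⟩ := IsAtomic.exists_atom (Submodule A A)
  let C : ShortComplex (ModuleCat.{0} A) :=
    ShortComplex.mk (ModuleCat.ofHom S.subtype) (ModuleCat.ofHom S.mkQ) (by
      ext x
      simp)
  have hC : C.ShortExact :=
    { exact := by
        rw [ShortComplex.moduleCat_exact_iff]
        intro x hx
        have hx' : S.mkQ x = 0 := hx
        rw [Submodule.mkQ_apply, Submodule.Quotient.mk_eq_zero] at hx'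
        exact ⟨⟨x, hx'⟩, rfl⟩
      mono_f := (ModuleCat.mono_iff_injective _).2 S.subtype_injective
      epi_g := (ModuleCat.epi_iff_surjective _).2 S.mkQ_surjective }
  have hP : Projective C.X₂ := by
    change Projective (ModuleCat.of A A)
    rw [← IsProjective.iff_projective]
    infer_instance
  refine ⟨C.X₁, ?_, (hC.hasProjectiveDimensionLT_X₃_iff 2 hP).1 (h3 _)⟩
  exact isSimpleModule_iff_isAtom.2 hS

theorem cramer_minor {n : ℕ} (M : Matrix (Fin n) (Fin n) ℤ) (i : Fin n) (x : Fin n → ℤ)
    (hx : ∀ l, (if l = i then 1 else 0 : ℤ) = ∑ j, x j * M l j) :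
    x i * M.det = (M.submatrix (Subtype.val : {j : Fin n // j ≠ i} → Fin n) Subtype.val).det := by
  obtain _ | m := n
  · exact i.elim0
  have h1 : M.mulVec x = Pi.single i 1 := by
    funext l
    rw [Matrix.mulVec, dotProduct, Pi.single_apply, hx l]
    exact Finset.sum_congr rfl fun j _ => mul_comm _ _
  have h2 : M.adjugate.mulVec (M.mulVec x) = M.det • x := by
    rw [Matrix.mulVec_mulVec, Matrix.adjugate_mul, Matrix.smul_mulVec, Matrix.one_mulVec]
  rw [h1, Matrix.mulVec_single_one] at h2
  have h3 : M.adjugate i i = M.det * x i := congrFun h2 i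
  rw [mul_comm, ← h3, Matrix.adjugate_fin_succ_eq_det_submatrix, ← two_mul, pow_mul]
  rw [neg_one_sq, one_pow, one_mul]
  rw [← Matrix.det_submatrix_equiv_self (finSuccAboveEquiv i)
    (M.submatrix (Subtype.val : {j : Fin (m + 1) // j ≠ i} → Fin (m + 1)) Subtype.val)]
  rfl

end Pool.Agent.CDN
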