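import Pool.Agent.Lib.MP_a20de0_al.CDN.Res
import Pool.Agent.Lib.MP_a20de0_al.CDN.Soc

set_option autoImplicit false

/-! CDN-Final.  Assembly. -/

namespace Pool.Agent.CDN
open CategoryTheory

theorem cartan_pd2 (k : Type) [Field k] (A : Type) [Ring A] [Algebra k A] [Module.Finite k A] (n : ℕ)
    (e : Fin n → A) (h : Elem k e) (hgl : CDC.FinGl A) (i : Fin n) (N : ModuleCat.{0} A)
    (hN : IsSimpleModule A N) (y : N) (hy : e i • y ≠ 0) (hpd : HasProjectiveDimensionLT N 3)
    (hpos : 0 < Matrix.det ((Matrix.of fun i j : Fin n => (CDC.la k (e i) (e j) : ℤ)).submatrix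
      (Subtype.val : {j : Fin n // j ≠ i} → Fin n) Subtype.val)) :
    Matrix.det (Matrix.of fun i j : Fin n => (CDC.la k (e i) (e j) : ℤ)) = 1 := by
  obtain ⟨x, hx1, hx2⟩ := relation h hgl i N hN y hy hpd
  have hc := cramer_minor (Matrix.of fun i j : Fin n => (CDC.la k (e i) (e j) : ℤ)) i x hx2
  rcases det_unit h hgl with h1 | h1
  · exact h1
  · exfalso
    rw [h1] at hc
    rw [← hc] at hpos
    linarith

theorem la_self_pos (k : Type) [Field k] {A : Type} [Ring A] [Algebra k A] [Module.Finite k A] {a : A}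
    (ha : IsIdempotentElem a) (h0 : a ≠ 0) : 0 < CDC.la k a a := by
  unfold CDC.la
  rw [Module.length_eq_finrank]
  simp only [ENat.toNat_coe]
  have hmem : a ∈ LinearMap.range ((LinearMap.mulLeft k a).comp (LinearMap.mulRight k a)) := by
    refine ⟨a, ?_⟩
    simp only [LinearMap.coe_comp, Function.comp_apply, LinearMap.mulRight_apply, LinearMap.mulLeft_apply]
    rw [ha.eq, ha.eq]
  have : Nontrivial (LinearMap.range ((LinearMap.mulLeft k a).comp (LinearMap.mulRight k a))) :=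
    ⟨⟨⟨a, hmem⟩, 0, fun h => h0 (congrArg Subtype.val h)⟩⟩
  exact Module.finrank_pos

theorem cartan_two (k : Type) [Field k] (A : Type) [Ring A] [Algebra k A] [Module.Finite k A]
    (e : Fin 2 → A) (h : Elem k e) (h3 : ∀ M : ModuleCat.{0} A, HasProjectiveDimensionLT M 4) :
    Matrix.det (Matrix.of fun i j : Fin 2 => (CDC.la k (e i) (e j) : ℤ)) = 1 := by
  have : IsArtinianRing A := isArtinian_of_tower k inferInstance
  have : Nontrivial A := ⟨⟨e 0, 0, h.ne 0⟩⟩
  obtain ⟨N, hN, hpd⟩ := exists_pd2 h3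
  obtain ⟨i, y, hy⟩ : ∃ (i : Fin 2) (y : N), e i • y ≠ 0 := by
    by_contra hcon
    push_neg at hcon
    have := hN.nontrivial
    obtain ⟨y, hy⟩ := exists_ne (0 : N)
    apply hy
    rw [← one_smul A y, ← h.sum, Finset.sum_smul]
    exact Finset.sum_eq_zero (fun i _ => hcon i y)
  refine cartan_pd2 k A 2 e h ⟨4, h3⟩ i N hN y hy hpd ?_
  have key : ∀ j : Fin 2, (0 : ℤ) < CDC.la k (e j) (e j) := fun j => by
    exact_mod_cast la_self_pos k (h.idem j) (h.ne j)
  have hu : ∀ i : Fin 2, ∃ j : Fin 2, ∀ x : Fin 2, x ≠ i ↔ x = j := by decide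
  obtain ⟨j, hj⟩ := hu i
  let E : Unique {x : Fin 2 // x ≠ i} :=
    { default := ⟨j, (hj j).2 rfl⟩, uniq := fun x => Subtype.ext ((hj x.1).1 x.2) }
  rw [Matrix.det_unique]
  exact key _

end Pool.Agent.CDN
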