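import Pool.Agent.Lib.MP_a20de0_al.CDN.LenS
import Pool.Agent.Lib.MP_a20de0_al.CDC.KS
import Pool.Agent.Lib.MP_a20de0_al.CDC.QLem

set_option autoImplicit false

/-! CDN-QAll.  If `A` has finite global dimension, `CDC.Q k e M` for all finite-dimensional `M` (induction on `m` with `HasProjectiveDimensionLT M m`: `m = 1`: `CDC.KS`,
`CDC.Q_XM`; otherwise a surjection `Fin r → A` onto `M`, `Q` of `Fin r → A` (projective) and of the kernel, `CDC.Q_quot`, `CDC.Q_congr`).
`det_unit`: `Q` of the simple modules `A e_i / I` of `exists_simple` and `len_simple`, `CDC.len_Le` (`len k a (A b) = la k a b`): an integer matrix `X` with `C X = 1`. -/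

namespace Pool.Agent.CDN
open CategoryTheory

variable {k : Type} [Field k] {A : Type} [Ring A] [Algebra k A] [Module.Finite k A] {n : ℕ} {e : Fin n → A}

private theorem qa_proj (h : Elem k e) (M : Type) [AddCommGroup M] [Module k M] [Module A M]
    [IsScalarTower k A M] [Module.Finite k M] [Module.Projective A M] : CDC.Q k e M := by
  obtain ⟨r, σ, ⟨f⟩⟩ := CDC.KS k e h.idem h.sum (fun i => el_loc h i) M
  exact CDC.Q_congr k f.symm (CDC.Q_XM k σ)

private theorem qa_succ (h : Elem k e) (m : ℕ) : ∀ (M : Type) [AddCommGroup M] [Module k M] [Module A M]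
    [IsScalarTower k A M] [Module.Finite k M], HasProjectiveDimensionLT (ModuleCat.of A M) (m + 1) → CDC.Q k e M := by
  induction m with
  | zero =>
    intro M _ _ _ _ _ hM
    have h1 : Projective (ModuleCat.of A M) := projective_iff_hasProjectiveDimensionLT_one.2 hM
    have h2 : Module.Projective A M := (IsProjective.iff_projective M).2 h1
    exact qa_proj h M
  | succ m ih =>
    intro M _ _ _ _ _ hM
    have hfin : Module.Finite A M := Module.Finite.of_restrictScalars_finite k A M
    obtain ⟨r, f, hf⟩ := Module.Finite.exists_fin' A M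
    have hS := LinearMap.shortExact_shortComplexKer hf
    have hP : Projective (ModuleCat.of A (Fin r → A)) := ModuleCat.projective_of_categoryTheory_projective _
    have hK : HasProjectiveDimensionLT (ModuleCat.of A (LinearMap.ker f)) (m + 1) :=
      (hS.hasProjectiveDimensionLT_X₃_iff m hP).1 hM
    have hfK : Module.Finite k (LinearMap.ker f) :=
      Module.Finite.of_injective ((LinearMap.ker f).subtype.restrictScalars k) Subtype.val_injective
    have h1 : CDC.Q k e (LinearMap.ker f) := ih (LinearMap.ker f) hK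
    have h2 : CDC.Q k e (Fin r → A) := qa_proj h (Fin r → A)
    have h3 := CDC.Q_quot k (LinearMap.ker f) h2 h1
    exact CDC.Q_congr k (f.quotKerEquivOfSurjective hf) h3

theorem Q_all (h : Elem k e) (hgl : CDC.FinGl A) (M : Type) [AddCommGroup M] [Module k M] [Module A M]
    [IsScalarTower k A M] [Module.Finite k M] : CDC.Q k e M := by
  obtain ⟨m, hm⟩ := hgl
  have h1 := hm (ModuleCat.of A M)
  exact qa_succ h m M (hasProjectiveDimensionLT_of_ge _ m (m + 1) (Nat.le_succ m))

theorem det_unit (h : Elem k e) (hgl : CDC.FinGl A) :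
    Matrix.det (Matrix.of fun i j : Fin n => (CDC.la k (e i) (e j) : ℤ)) = 1 ∨
    Matrix.det (Matrix.of fun i j : Fin n => (CDC.la k (e i) (e j) : ℤ)) = -1 := by
  classical
  have key : ∀ i : Fin n, ∃ x : Fin n → ℤ, ∀ j : Fin n,
      (if j = i then (1 : ℤ) else 0) = ∑ l, x l * (CDC.la k (e j) (e l) : ℤ) := by
    intro i
    obtain ⟨I, hI, -, y, hy⟩ := exists_simple h i
    have hfL : Module.Finite k (CDC.Le (e i)) := by
      have h1 : Module.Finite k ((Submodule.span A ({e i} : Set A)).restrictScalars k) := inferInstance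
      exact h1
    have hfN : Module.Finite k (CDC.Le (e i) ⧸ I) :=
      Module.Finite.of_surjective (I.mkQ.restrictScalars k) I.mkQ_surjective
    obtain ⟨x, hx⟩ := Q_all h hgl (CDC.Le (e i) ⧸ I)
    refine ⟨x, fun j => ?_⟩
    have h2 := hx (e j) (h.idem j)
    rw [len_simple h _ hI i y hy j] at h2
    have h3 : ∀ l, CDC.len k (e j) (CDC.Le (e l)) = CDC.la k (e j) (e l) := fun l =>
      CDC.len_Le k (e j) (e l) (h.idem l)
    simp only [h3] at h2
    rw [← h2]
    push_cast
    rfl
  choose X hX using key
  have hmul : (Matrix.of fun i j : Fin n => (CDC.la k (e i) (e j) : ℤ)) * (Matrix.of fun l i : Fin n => X i l) = 1 := by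
    ext j i
    rw [Matrix.mul_apply, Matrix.one_apply, hX i j]
    exact Finset.sum_congr rfl fun l _ => by simp [mul_comm]
  have hdet := congrArg Matrix.det hmul
  rw [Matrix.det_mul, Matrix.det_one] at hdet
  exact Int.isUnit_iff.1 (IsUnit.of_mul_eq_one _ hdet)

end Pool.Agent.CDN
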