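import Pool.Agent.Lib.MP_a20de0_al.CDN.El
import Pool.Agent.Lib.MP_a20de0_al.CDC.XMod

set_option autoImplicit false

/-! CDN-ZCount.  If `0 ≠ z = z e_i`, `z J = 0`, then a monomorphism `⊕ A e_(τ t) → ⊕ A e_(σ t)` of projective modules does not lower
the number of summands `A e_i`: it maps `z (⊕ A e_(τ t))`, of dimension `#{t | τ t = i}`, into `z (⊕ A e_(σ t))`. -/

namespace Pool.Agent.CDN

theorem zcount {k : Type} [Field k] {A : Type} [Ring A] [Algebra k A] {n : ℕ} {e : Fin n → A}
    (h : Elem k e) (i : Fin n) (z : A) (hz0 : z ≠ 0) (hzi : z * e i = z)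
    (hzJ : ∀ x ∈ (⊥ : Ideal A).jacobson, z * x = 0) {r s : ℕ} (σ : Fin r → Fin n) (τ : Fin s → Fin n)
    (d : CDC.XM e τ →ₗ[A] CDC.XM e σ) (hd : Function.Injective d) :
    (∑ t : Fin s, if τ t = i then (1 : ℤ) else 0) ≤ ∑ t : Fin r, if σ t = i then (1 : ℤ) else 0 := by
  classical
  -- `z a = λ z`
  have hz : ∀ a : A, ∃ c : k, z * a = c • z := by
    intro a
    obtain ⟨c, hc⟩ := h.elem a
    refine ⟨c i, ?_⟩
    have h1 := hzJ _ hc
    rw [mul_sub, sub_eq_zero] at h1
    rw [h1, Finset.mul_sum, Finset.sum_eq_single i]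
    · rw [mul_smul_comm, hzi]
    · intro j _ hj
      rw [mul_smul_comm, ← hzi, mul_assoc, h.orth i j (Ne.symm hj), mul_zero, smul_zero]
    · intro h0
      exact absurd (Finset.mem_univ i) h0
  -- `z (A e_j) = 0`, `j ≠ i`
  have hz2 : ∀ j, j ≠ i → ∀ y : CDC.Le (e j), z * (y : A) = 0 := by
    intro j hj y
    obtain ⟨c, hc⟩ := Submodule.mem_span_singleton.1 y.2
    obtain ⟨b, hb⟩ := hz c
    rw [← hc, smul_eq_mul, ← mul_assoc, hb, smul_mul_assoc, ← hzi, mul_assoc, h.orth i j (Ne.symm hj), mul_zero, smul_zero]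
  -- a functional with `ψ z = 1`
  obtain ⟨ψ, hψ⟩ := LinearMap.exists_leftInverse_of_injective (LinearMap.toSpanSingleton k A z)
    (LinearMap.ker_toSpanSingleton k hz0)
  have hψ1 : ψ z = 1 := by
    have := LinearMap.congr_fun hψ 1
    simpa using this
  -- the element `z • (c_t e_(τ t))_t`
  let X : ({t : Fin s // τ t = i} → k) →ₗ[k] CDC.XM e τ :=
    { toFun := fun c t => if ht : τ t = i then (c ⟨t, ht⟩ • (z • (⟨e (τ t), Submodule.mem_span_singleton_self _⟩ : CDC.Le (e (τ t)))))
        else 0
      map_add' := by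
        intro c c'
        funext t
        simp only [Pi.add_apply]
        split_ifs with ht
        · rw [add_smul]
        · rw [add_zero]
      map_smul' := by
        intro a c
        funext t
        simp only [Pi.smul_apply, RingHom.id_apply, smul_eq_mul]
        split_ifs with ht
        · rw [mul_smul]
        · rw [smul_zero] }
  have hXz : ∀ c, ∃ y : CDC.XM e τ, X c = z • y := by
    intro c
    refine ⟨fun t => if ht : τ t = i then (c ⟨t, ht⟩ • (⟨e (τ t), Submodule.mem_span_singleton_self _⟩ : CDC.Le (e (τ t))))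
        else 0, ?_⟩
    funext t
    rw [Pi.smul_apply]
    by_cases ht : τ t = i
    · simp only [X, LinearMap.coe_mk, AddHom.coe_mk, dif_pos ht]
      rw [smul_comm]
    · simp only [X, LinearMap.coe_mk, AddHom.coe_mk, dif_neg ht, smul_zero]
  let Φ : ({t : Fin s // τ t = i} → k) →ₗ[k] ({t : Fin r // σ t = i} → k) :=
    { toFun := fun c t => ψ ((d (X c) t.1 : CDC.Le (e (σ t.1))) : A)
      map_add' := by
        intro c c'
        funext t
        rw [map_add, map_add]
        change ψ (((d (X c) t.1 : CDC.Le (e (σ t.1))) : A) + ((d (X c') t.1 : CDC.Le (e (σ t.1))) : A)) = _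
        rw [map_add]
        rfl
      map_smul' := by
        intro a c
        funext t
        have h1 : d (X (a • c)) = a • d (X c) := by
          rw [map_smul]
          exact (d.restrictScalars k).map_smul a (X c)
        rw [h1]
        change ψ (a • ((d (X c) t.1 : CDC.Le (e (σ t.1))) : A)) = _
        rw [map_smul]
        rfl }
  have hΦ : Function.Injective Φ := by
    rw [← LinearMap.ker_eq_bot, LinearMap.ker_eq_bot']
    intro c hc
    obtain ⟨y, hy⟩ := hXz c
    have h0 : d (X c) = 0 := by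
      funext t
      apply Subtype.ext
      have h1 : ((d (X c) t : CDC.Le (e (σ t))) : A) = z * ((d y t : CDC.Le (e (σ t))) : A) := by
        rw [hy, map_smul]
        rfl
      change ((d (X c) t : CDC.Le (e (σ t))) : A) = 0
      by_cases ht : σ t = i
      · obtain ⟨b, hb⟩ := hz ((d y t : CDC.Le (e (σ t))) : A)
        have h2 : ψ ((d (X c) t : CDC.Le (e (σ t))) : A) = 0 := congrFun hc ⟨t, ht⟩
        rw [h1, hb, map_smul, hψ1, smul_eq_mul, mul_one] at h2
        rw [h1, hb, h2, zero_smul]
      · rw [h1]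
        exact hz2 _ ht _
    have h3 : X c = 0 := hd (h0.trans (map_zero d).symm)
    funext t
    have h4 := congrFun h3 t.1
    simp only [X, LinearMap.coe_mk, AddHom.coe_mk, dif_pos t.2] at h4
    have h5 : c t • (z * e (τ t.1)) = 0 := congrArg Subtype.val h4
    rw [t.2, hzi] at h5
    exact (smul_eq_zero.1 h5).resolve_right hz0
  have hcard := LinearMap.finrank_le_finrank_of_injective hΦ
  rw [Module.finrank_fintype_fun_eq_card, Module.finrank_fintype_fun_eq_card, Fintype.card_subtype, Fintype.card_subtype] at hcard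
  rw [Finset.sum_boole, Finset.sum_boole]
  exact_mod_cast hcard

end Pool.Agent.CDN
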