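import Pool.Agent.Lib.MP_a20de0_al.CDN.QAll
import Pool.Agent.Lib.MP_a20de0_al.CDC.ExtT
import Pool.Agent.Lib.MP_a20de0_al.CDC.XMod

set_option autoImplicit false

/-! CDN-HomCount.  `S` simple, `e_j S ≠ 0`, `M` of finite projective dimension with `Ext^t(M,S) = 0` for `t ≥ 1`: the class of `M` is
`∑ x_l [A e_l]` with `x_j = dim Hom(M,S)`. -/

namespace Pool.Agent.CDN
open CategoryTheory

variable {k : Type} [Field k] {A : Type} [Ring A] [Algebra k A] [Module.Finite k A] {n : ℕ} {e : Fin n → A}

private theorem hc_finLe (a : A) : Module.Finite k (CDC.Le a) := by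
  have h : Module.Finite k ((Submodule.span A ({a} : Set A)).restrictScalars k) := inferInstance
  exact h

private theorem hc_mul {a : A} (ha : IsIdempotentElem a) (b : CDC.Le a) : (b : A) * a = b := by
  obtain ⟨c, hc⟩ := Submodule.mem_span_singleton.1 b.2
  rw [← hc, smul_eq_mul, mul_assoc, ha.eq]

theorem finrank_hom_Le {a : A} (ha : IsIdempotentElem a) (S : Type) [AddCommGroup S] [Module k S] [Module A S]
    [IsScalarTower k A S] [Module.Finite k S] : Module.finrank k (CDC.Le a →ₗ[A] S) = CDC.len k a S := by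
  unfold CDC.len
  rw [Module.length_eq_finrank]
  simp only [ENat.toNat_coe]
  let g : CDC.Le a := ⟨a, Submodule.mem_span_singleton_self a⟩
  have hg : a • g = g := Subtype.ext ha.eq
  have hb : ∀ b : CDC.Le a, b = (b : A) • g := fun b => Subtype.ext (hc_mul ha b).symm
  let E : (CDC.Le a →ₗ[A] S) ≃ₗ[k] LinearMap.range (Algebra.lsmul k k S a) :=
    { toFun := fun f => ⟨f g, ⟨f g, by
        change a • f g = f g
        rw [← map_smul, hg]⟩⟩
      map_add' := fun f f' => rfl
      map_smul' := fun c f => rfl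
      invFun := fun s => (LinearMap.toSpanSingleton A S s.1) ∘ₗ (Submodule.subtype (Submodule.span A ({a} : Set A)))
      left_inv := by
        intro f
        refine LinearMap.ext fun b => ?_
        change (b : A) • f g = f b
        rw [← map_smul, ← hb]
      right_inv := by
        rintro ⟨s, s', hs⟩
        apply Subtype.ext
        change a • s = s
        rw [← hs]
        change a • a • s' = a • s'
        rw [← mul_smul, ha.eq] }
  exact E.finrank_eq

omit [Module.Finite k A] in
private theorem hf_aux (L : Type) [AddCommGroup L] [Module k L] [Module A L] [IsScalarTower k A L] [Module.Finite k L]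
    (S : Type) [AddCommGroup S] [Module k S] [Module A S]
    [IsScalarTower k A S] [Module.Finite k S] : Module.Finite k (L →ₗ[A] S) := by
  let F : (L →ₗ[A] S) →ₗ[k] (L →ₗ[k] S) :=
    { toFun := fun f => f.restrictScalars k
      map_add' := fun _ _ => rfl
      map_smul' := fun _ _ => rfl }
  exact Module.Finite.of_injective F (fun f g h => by
    ext x
    exact LinearMap.congr_fun h x)

omit [Module.Finite k A] in
private theorem pi_aux (r : ℕ) (L : Fin r → Type) [∀ t, AddCommGroup (L t)] [∀ t, Module k (L t)] [∀ t, Module A (L t)]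
    [∀ t, IsScalarTower k A (L t)] [∀ t, Module.Finite k (L t)]
    (S : Type) [AddCommGroup S] [Module k S] [Module A S]
    [IsScalarTower k A S] [Module.Finite k S] :
    Module.finrank k ((∀ t, L t) →ₗ[A] S) = ∑ t, Module.finrank k (L t →ₗ[A] S) := by
  classical
  have hf : ∀ t, Module.Finite k (L t →ₗ[A] S) := fun t => hf_aux (L t) S
  let E : ((∀ t, (L t →ₗ[A] S))) ≃ₗ[k] ((∀ t, L t) →ₗ[A] S) :=
    { toFun := fun f => ∑ t, (f t) ∘ₗ (LinearMap.proj t)
      map_add' := by
        intro f g
        rw [← Finset.sum_add_distrib]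
        refine Finset.sum_congr rfl fun t _ => ?_
        rfl
      map_smul' := by
        intro c f
        rw [RingHom.id_apply, Finset.smul_sum]
        refine Finset.sum_congr rfl fun t _ => ?_
        rfl
      invFun := fun g t => g ∘ₗ (LinearMap.single A L t)
      left_inv := by
        intro f
        funext t
        ext x
        rw [LinearMap.comp_apply, LinearMap.sum_apply, Finset.sum_eq_single t]
        · simp
        · intro s _ hs
          rw [LinearMap.comp_apply, LinearMap.proj_apply, LinearMap.coe_single, Pi.single_eq_of_ne hs, map_zero]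
        · intro h0
          exact absurd (Finset.mem_univ t) h0
      right_inv := by
        intro g
        refine LinearMap.ext fun x => ?_
        change (∑ t, (g ∘ₗ (LinearMap.single A L t)) ∘ₗ (LinearMap.proj t)) x = g x
        rw [LinearMap.sum_apply]
        simp only [LinearMap.comp_apply, LinearMap.proj_apply]
        rw [← map_sum]
        congr 1
        funext s
        rw [Finset.sum_apply, Finset.sum_eq_single s]
        · simp
        · intro t _ ht
          rw [LinearMap.coe_single, Pi.single_eq_of_ne (Ne.symm ht)]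
        · intro h0
          exact absurd (Finset.mem_univ s) h0 }
  rw [← E.finrank_eq, Module.finrank_pi_fintype]

theorem finrank_hom_XM (h : Elem k e) (S : Type) [AddCommGroup S] [Module k S] [Module A S]
    [IsScalarTower k A S] [Module.Finite k S] (hS : IsSimpleModule A S) (j : Fin n) (y : S) (hy : e j • y ≠ 0)
    {r : ℕ} (σ : Fin r → Fin n) :
    (Module.finrank k (CDC.XM e σ →ₗ[A] S) : ℤ) = ∑ t : Fin r, if σ t = j then (1 : ℤ) else 0 := by
  classical
  have hL : ∀ t : Fin r, Module.Finite k (CDC.Le (e (σ t))) := fun t => hc_finLe _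
  have h1 : Module.finrank k (CDC.XM e σ →ₗ[A] S) = ∑ t : Fin r, Module.finrank k (CDC.Le (e (σ t)) →ₗ[A] S) :=
    pi_aux r (fun t => CDC.Le (e (σ t))) S
  rw [h1, Nat.cast_sum]
  refine Finset.sum_congr rfl fun t _ => ?_
  rw [finrank_hom_Le (h.idem _) S, len_simple h S hS j y hy (σ t), Nat.cast_ite, Nat.cast_one, Nat.cast_zero]

/-- maps to `S` extend if `Ext^1(M/N, S) = 0` -/
theorem T_extend {S : Type} [AddCommGroup S] [Module A S] {M : Type} [AddCommGroup M] [Module A M] (N : Submodule A M)
    (h1 : CDC.T A S (M ⧸ N) 1) (g : N →ₗ[A] S) : ∃ g' : M →ₗ[A] S, g' ∘ₗ N.subtype = g := by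
  let C : ShortComplex (ModuleCat.{0} A) :=
    ShortComplex.mk (ModuleCat.ofHom N.subtype) (ModuleCat.ofHom N.mkQ) (by
      ext x
      simp)
  have hC : C.ShortExact := by
    refine ModuleCat.shortComplex_shortExact _ ?_ ?_ ?_
    · intro x
      change N.mkQ x = 0 ↔ x ∈ Set.range N.subtype
      rw [Submodule.mkQ_apply, Submodule.Quotient.mk_eq_zero]
      exact ⟨fun h => ⟨⟨x, h⟩, rfl⟩, by rintro ⟨y, rfl⟩; exact y.2⟩
    · exact N.injective_subtype
    · exact N.mkQ_surjective
  obtain ⟨y, hy⟩ := Abelian.Ext.contravariant_sequence_exact₁ hC (ModuleCat.of A S)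
    (Abelian.Ext.mk₀ (ModuleCat.ofHom g)) (add_comm 1 0) (h1 _)
  obtain ⟨g', rfl⟩ := (Abelian.Ext.mk₀_bijective _ _).2 y
  refine ⟨g'.hom, ?_⟩
  rw [Abelian.Ext.mk₀_comp_mk₀] at hy
  have h2 := (Abelian.Ext.mk₀_bijective _ _).1 hy
  exact congrArg ModuleCat.Hom.hom h2

private theorem hom_congr {M M' : Type} [AddCommGroup M] [Module k M] [Module A M] [IsScalarTower k A M]
    [AddCommGroup M'] [Module k M'] [Module A M'] [IsScalarTower k A M'] (ψ : M ≃ₗ[A] M')
    (S : Type) [AddCommGroup S] [Module k S] [Module A S] [IsScalarTower k A S] :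
    Module.finrank k (M →ₗ[A] S) = Module.finrank k (M' →ₗ[A] S) := by
  let E : (M →ₗ[A] S) ≃ₗ[k] (M' →ₗ[A] S) :=
    { toFun := fun f => f ∘ₗ ψ.symm.toLinearMap
      map_add' := fun _ _ => rfl
      map_smul' := fun _ _ => rfl
      invFun := fun g => g ∘ₗ ψ.toLinearMap
      left_inv := by
        intro f
        refine LinearMap.ext fun x => ?_
        change f (ψ.symm (ψ x)) = f x
        rw [ψ.symm_apply_apply]
      right_inv := by
        intro g
        refine LinearMap.ext fun x => ?_
        change g (ψ (ψ.symm x)) = g x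
        rw [ψ.apply_symm_apply] }
  exact E.finrank_eq

private theorem hom_rank {P : Type} [AddCommGroup P] [Module k P] [Module A P] [IsScalarTower k A P] [Module.Finite k P]
    (K : Submodule A P) (S : Type) [AddCommGroup S] [Module k S] [Module A S] [IsScalarTower k A S] [Module.Finite k S]
    (h1 : CDC.T A S (P ⧸ K) 1) :
    Module.finrank k (P →ₗ[A] S) = Module.finrank k (K →ₗ[A] S) + Module.finrank k ((P ⧸ K) →ₗ[A] S) := by
  have hf := hf_aux (k := k) (A := A) P S
  let res : (P →ₗ[A] S) →ₗ[k] (K →ₗ[A] S) :=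
    { toFun := fun f => f ∘ₗ K.subtype
      map_add' := fun _ _ => rfl
      map_smul' := fun _ _ => rfl }
  let q : ((P ⧸ K) →ₗ[A] S) →ₗ[k] (P →ₗ[A] S) :=
    { toFun := fun f => f ∘ₗ K.mkQ
      map_add' := fun _ _ => rfl
      map_smul' := fun _ _ => rfl }
  have hres : LinearMap.range res = ⊤ := by
    rw [LinearMap.range_eq_top]
    intro g
    exact T_extend K h1 g
  have hq : Function.Injective q := by
    intro f g hfg
    refine LinearMap.ext fun x => ?_
    obtain ⟨x, rfl⟩ := K.mkQ_surjective x
    exact LinearMap.congr_fun hfg x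
  have hqr : LinearMap.range q = LinearMap.ker res := by
    ext f
    constructor
    · rintro ⟨g, rfl⟩
      rw [LinearMap.mem_ker]
      refine LinearMap.ext fun x => ?_
      change g (K.mkQ x.1) = 0
      rw [Submodule.mkQ_apply, (Submodule.Quotient.mk_eq_zero K).2 x.2, map_zero]
    · intro hf
      rw [LinearMap.mem_ker] at hf
      have hK : K ≤ LinearMap.ker f := by
        intro x hx
        exact LinearMap.congr_fun hf ⟨x, hx⟩
      refine ⟨K.liftQ f hK, ?_⟩
      refine LinearMap.ext fun x => ?_
      exact K.liftQ_apply (h := hK) f x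
  have h2 := LinearMap.finrank_range_add_finrank_ker res
  rw [hres, finrank_top, ← hqr, LinearMap.finrank_range_of_inj hq] at h2
  exact h2.symm

private theorem hc_lenXM (h : Elem k e) {r : ℕ} (σ : Fin r → Fin n) (l : Fin n) :
    (CDC.len k (e l) (CDC.XM e σ) : ℤ) = ∑ t, (CDC.la k (e l) (e (σ t)) : ℤ) := by
  have hf : ∀ t : Fin r, Module.Finite k (CDC.Le (e (σ t))) := fun t => hc_finLe _
  have h1 := CDC.len_pi k (h.idem l) (fun t => CDC.Le (e (σ t)))
  have h2 : CDC.len k (e l) (CDC.XM e σ) = ∑ t, CDC.la k (e l) (e (σ t)) := by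
    refine Eq.trans h1 (Finset.sum_congr rfl fun t _ => ?_)
    exact CDC.len_Le k (e l) (e (σ t)) (h.idem _)
  rw [h2, Nat.cast_sum]

private theorem hc_sum {n r : ℕ} (σ : Fin r → Fin n) (c : Fin n → ℤ) :
    ∑ j, (∑ t : Fin r, if σ t = j then (1 : ℤ) else 0) * c j = ∑ t, c (σ t) := by
  classical
  simp only [Finset.sum_mul]
  rw [Finset.sum_comm]
  refine Finset.sum_congr rfl fun t _ => ?_
  rw [Finset.sum_eq_single (σ t)]
  · simp
  · intro j _ hj
    rw [if_neg (fun h => hj h.symm), zero_mul]
  · intro h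
    exact absurd (Finset.mem_univ _) h

theorem hom_count (h : Elem k e) (S : Type) [AddCommGroup S] [Module k S] [Module A S]
    [IsScalarTower k A S] [Module.Finite k S] (hS : IsSimpleModule A S) (j : Fin n) (y : S) (hy : e j • y ≠ 0) (m : ℕ) :
    ∀ (M : Type) [AddCommGroup M] [Module k M] [Module A M] [IsScalarTower k A M] [Module.Finite k M],
      HasProjectiveDimensionLT (ModuleCat.of A M) (m + 1) → (∀ t, 1 ≤ t → CDC.T A S M t) →
      ∃ x : Fin n → ℤ, (∀ l, (CDC.len k (e l) M : ℤ) = ∑ i, x i * (CDC.la k (e l) (e i) : ℤ)) ∧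
        x j = (Module.finrank k (M →ₗ[A] S) : ℤ) := by
  induction m with
  | zero =>
    intro M _ _ _ _ _ hM _
    have h1 : Projective (ModuleCat.of A M) := projective_iff_hasProjectiveDimensionLT_one.2 hM
    have h2 : Module.Projective A M := (IsProjective.iff_projective M).2 h1
    obtain ⟨r, σ, ⟨ψ⟩⟩ := CDC.KS k e h.idem h.sum (fun i => el_loc h i) M
    refine ⟨fun i => ∑ t : Fin r, if σ t = i then (1 : ℤ) else 0, fun l => ?_, ?_⟩
    · rw [hc_sum σ (fun i => (CDC.la k (e l) (e i) : ℤ)), ← hc_lenXM h σ l, CDC.len_congr k (e l) ψ]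
    · rw [hom_congr (k := k) ψ S, finrank_hom_XM h S hS j y hy σ]
  | succ m ih =>
    intro M _ _ _ _ _ hM hT
    obtain ⟨r, σ, w, hw⟩ := CDC.exists_approx k h.idem M
    have hwS : Function.Surjective w := by
      intro x
      have h1 : x = ∑ j, e j • x := by
        rw [← Finset.sum_smul, h.sum, one_smul]
      have h2 : x ∈ LinearMap.range w := by
        rw [h1]
        exact Submodule.sum_mem _ fun j _ => hw j x
      exact h2
    have hXp : Module.Projective A (CDC.XM e σ) := CDC.proj_XM h.idem σ
    have hXp' : Projective (ModuleCat.of A (CDC.XM e σ)) := (IsProjective.iff_projective _).1 hXp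
    have hf : ∀ t : Fin r, Module.Finite k (CDC.Le (e (σ t))) := fun t => hc_finLe _
    have hXf : Module.Finite k (CDC.XM e σ) := Module.Finite.pi
    have hKf : Module.Finite k (LinearMap.ker w) :=
      Module.Finite.of_injective ((LinearMap.ker w).subtype.restrictScalars k) Subtype.val_injective
    have hSh := LinearMap.shortExact_shortComplexKer hwS
    have hK : HasProjectiveDimensionLT (ModuleCat.of A (LinearMap.ker w)) (m + 1) :=
      (hSh.hasProjectiveDimensionLT_X₃_iff m hXp').1 hM
    have hTq : ∀ t, 1 ≤ t → CDC.T A S (CDC.XM e σ ⧸ LinearMap.ker w) t := fun t ht =>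
      (CDC.T_congr (w.quotKerEquivOfSurjective hwS) t).2 (hT t ht)
    have hTK : ∀ t, 1 ≤ t → CDC.T A S (LinearMap.ker w) t := fun t ht =>
      CDC.T_sub (LinearMap.ker w) t (CDC.T_proj t ht) (hTq (t + 1) (by omega))
    obtain ⟨x, hx1, hx2⟩ := ih (LinearMap.ker w) hK hTK
    refine ⟨fun i => (∑ t : Fin r, if σ t = i then (1 : ℤ) else 0) - x i, fun l => ?_, ?_⟩
    · have l2 := CDC.len_add k (h.idem l) (M := CDC.XM e σ) (LinearMap.ker w)
      have l3 := CDC.len_congr k (e l) (w.quotKerEquivOfSurjective hwS)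
      have l5 := hc_lenXM h σ l
      have l6 := hc_sum σ (fun i => (CDC.la k (e l) (e i) : ℤ))
      simp only [sub_mul, Finset.sum_sub_distrib]
      rw [l6, ← hx1 l, ← l5, ← l3, l2]
      push_cast
      ring
    · have r1 := hom_rank (k := k) (LinearMap.ker w) S (hTq 1 le_rfl)
      have r2 := hom_congr (k := k) (w.quotKerEquivOfSurjective hwS) S
      have r3 := finrank_hom_XM h S hS j y hy σ
      change (∑ t : Fin r, if σ t = j then (1 : ℤ) else 0) - x j = _
      rw [← r3, hx2, ← r2, r1]
      push_cast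
      ring

end Pool.Agent.CDN
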