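import Mathlib

set_option autoImplicit false

/-! CDN-Jac.  Linear algebra: if the columns of `X` with index in `p` are columns of the inverse of `C`, and the block of `X` on `p` is triangular
with diagonal entries `≥ 1`, then `det C` is positive as soon as the minor of `C` on the complement of `p` is positive. -/

namespace Pool.Agent.CDN

theorem jac_pos {n : ℕ} (C X : Matrix (Fin n) (Fin n) ℤ) (p : Fin n → Prop) [DecidablePred p]
    (hX : ∀ l i, p i → (∑ j, C l j * X j i) = if l = i then 1 else 0)
    (hdiag : ∀ i, p i → 1 ≤ X i i) (htri : ∀ i j, p i → p j → i < j → X j i = 0)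
    (hpos : 0 < (C.submatrix (Subtype.val : {j : Fin n // ¬ p j} → Fin n) Subtype.val).det) :
    0 < C.det := by
  classical
  let Y : Matrix (Fin n) (Fin n) ℤ := Matrix.of fun j i => if p i then X j i else if j = i then 1 else 0
  let Z : Matrix (Fin n) (Fin n) ℤ := Matrix.of fun l i => if p i then (if l = i then 1 else 0) else C l i
  have h1 : C * Y = Z := by
    ext l i
    rw [Matrix.mul_apply]
    simp only [Y, Z, Matrix.of_apply]
    by_cases hi : p i
    · simp only [if_pos hi]
      exact hX l i hi
    · simp only [if_neg hi]
      simp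
  have h2 : Y.det = (X.submatrix (Subtype.val : {j : Fin n // p j} → Fin n) Subtype.val).det := by
    rw [Matrix.twoBlockTriangular_det' Y p]
    · have e1 : Y.toSquareBlockProp p = X.submatrix (Subtype.val : {j : Fin n // p j} → Fin n) Subtype.val := by
        ext a b
        simp only [Matrix.toSquareBlockProp_def, Matrix.of_apply, Y, Matrix.submatrix_apply, if_pos b.2]
      have e2 : Y.toSquareBlockProp (fun i => ¬ p i) = 1 := by
        ext a b
        simp only [Matrix.toSquareBlockProp_def, Matrix.of_apply, Y, if_neg b.2, Matrix.one_apply, Subtype.ext_iff]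
      rw [e1, e2, Matrix.det_one, mul_one]
    · intro a ha b hb
      simp only [Y, Matrix.of_apply, if_neg hb]
      exact if_neg (fun h : a = b => hb (h ▸ ha))
  have h3 : Z.det = (C.submatrix (Subtype.val : {j : Fin n // ¬ p j} → Fin n) Subtype.val).det := by
    rw [Matrix.twoBlockTriangular_det Z p]
    · have e1 : Z.toSquareBlockProp p = 1 := by
        ext a b
        simp only [Matrix.toSquareBlockProp_def, Matrix.of_apply, Z, if_pos b.2, Matrix.one_apply, Subtype.ext_iff]
      have e2 : Z.toSquareBlockProp (fun i => ¬ p i) = C.submatrix (Subtype.val : {j : Fin n // ¬ p j} → Fin n) Subtype.val := by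
        ext a b
        simp only [Matrix.toSquareBlockProp_def, Matrix.of_apply, Z, if_neg b.2, Matrix.submatrix_apply]
      rw [e1, e2, Matrix.det_one, one_mul]
    · intro a ha b hb
      simp only [Z, Matrix.of_apply, if_pos hb]
      exact if_neg (fun h : a = b => ha (h ▸ hb))
  have h4 : 0 < (X.submatrix (Subtype.val : {j : Fin n // p j} → Fin n) Subtype.val).det := by
    rw [Matrix.det_of_isUpperTriangular]
    · refine Finset.prod_pos fun a _ => ?_
      have := hdiag a.1 a.2
      rw [Matrix.submatrix_apply]
      linarith
    · intro a b hab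
      exact htri b.1 a.1 b.2 a.2 hab
  have h5 : C.det * (X.submatrix (Subtype.val : {j : Fin n // p j} → Fin n) Subtype.val).det =
      (C.submatrix (Subtype.val : {j : Fin n // ¬ p j} → Fin n) Subtype.val).det := by
    rw [← h2, ← Matrix.det_mul, h1, h3]
  rw [← h5] at hpos
  exact (mul_pos_iff_of_pos_right h4).1 hpos

end Pool.Agent.CDN
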