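import Pool.Agent.Lib.MP_a20de0_al.CDN.Cover
import Pool.Agent.Lib.MP_a20de0_al.CDN.HomCount
import Pool.Agent.Lib.MP_a20de0_al.CDN.Jac

set_option autoImplicit false

/-! CDN-Tri.  Assembly: simple modules `S_i`, `i ∈ p`, with `Ext^t(S_i,S_i) = 0` for `t ≥ 3` and `Ext^t(S_i,S_j) = 0` for `t ≥ 1`, `i < j`. -/

namespace Pool.Agent.CDN
open CategoryTheory

variable {k : Type} [Field k] {A : Type} [Ring A] [Algebra k A] [Module.Finite k A] {n : ℕ} {e : Fin n → A}

private theorem tr_finLe (a : A) : Module.Finite k (CDC.Le a) := by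
  have h : Module.Finite k ((Submodule.span A ({a} : Set A)).restrictScalars k) := inferInstance
  exact h

private theorem tr_lenXM (h : Elem k e) {r : ℕ} (σ : Fin r → Fin n) (l : Fin n) :
    (CDC.len k (e l) (CDC.XM e σ) : ℤ) = ∑ t, (CDC.la k (e l) (e (σ t)) : ℤ) := by
  have hf : ∀ t : Fin r, Module.Finite k (CDC.Le (e (σ t))) := fun t => tr_finLe _
  have h1 := CDC.len_pi k (h.idem l) (fun t => CDC.Le (e (σ t)))
  have h2 : CDC.len k (e l) (CDC.XM e σ) = ∑ t, CDC.la k (e l) (e (σ t)) := by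
    refine Eq.trans h1 (Finset.sum_congr rfl fun t _ => ?_)
    exact CDC.len_Le k (e l) (e (σ t)) (h.idem _)
  rw [h2, Nat.cast_sum]

private theorem tr_sum {n r : ℕ} (σ : Fin r → Fin n) (c : Fin n → ℤ) :
    ∑ j, (∑ t : Fin r, if σ t = j then (1 : ℤ) else 0) * c j = ∑ t, c (σ t) := by
  classical
  simp only [Finset.sum_mul]
  rw [Finset.sum_comm]
  refine Finset.sum_congr rfl fun t _ => ?_
  rw [Finset.sum_eq_single (σ t)]
  · simp
  · intro j _ hj
    rw [if_neg (fun h => hj h.symm), zero_mul]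
  · intro h
    exact absurd (Finset.mem_univ _) h

/-- the diagonal entry: `Ext^t(S_i,S_i) = 0` for `t ≥ 3` -/
theorem tri_diag (h : Elem k e) (hgl : CDC.FinGl A) (i : Fin n)
    (hT : ∀ (S : Type) [AddCommGroup S] [Module A S], IsSimpleModule A S → (∃ y : S, e i • y ≠ 0) →
      ∀ t, 3 ≤ t → CDC.T A S S t) :
    ∃ x : Fin n → ℤ, 1 ≤ x i ∧ ∀ l, (if l = i then 1 else 0 : ℤ) = ∑ j, x j * (CDC.la k (e l) (e j) : ℤ) := by
  classical
  obtain ⟨I, hI, hIm, y', hy'⟩ := exists_simple h i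
  have hT' := hT (CDC.Le (e i) ⧸ I) hI ⟨y', hy'⟩
  have hL : Module.Finite k (CDC.Le (e i)) := tr_finLe _
  have hLp : Module.Projective A (CDC.Le (e i)) := CDC.proj_Le (h.idem i)
  have hTI : ∀ t, 2 ≤ t → CDC.T A (CDC.Le (e i) ⧸ I) I t := fun t ht =>
    CDC.T_sub I t (CDC.T_proj t (by omega)) (hT' (t + 1) (by omega))
  obtain ⟨r, σ, u, hσ, hu⟩ := cover h hgl i
  have hur : ∀ x, u x ∈ I := fun x => (hIm _).2 ((hu _).1 ⟨x, rfl⟩)
  let v : CDC.XM e σ →ₗ[A] I := u.codRestrict I hur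
  have hv : Function.Surjective v := by
    intro z
    obtain ⟨x, hx⟩ := (hu z.1).2 ((hIm z.1).1 z.2)
    exact ⟨x, Subtype.ext hx⟩
  have hXp : Module.Projective A (CDC.XM e σ) := CDC.proj_XM h.idem σ
  have hf : ∀ t : Fin r, Module.Finite k (CDC.Le (e (σ t))) := fun t => tr_finLe _
  have hXf : Module.Finite k (CDC.XM e σ) := Module.Finite.pi
  have hKf : Module.Finite k (LinearMap.ker v) :=
    Module.Finite.of_injective ((LinearMap.ker v).subtype.restrictScalars k) Subtype.val_injective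
  have hTK : ∀ t, 1 ≤ t → CDC.T A (CDC.Le (e i) ⧸ I) (LinearMap.ker v) t := fun t ht =>
    CDC.T_sub (LinearMap.ker v) t (CDC.T_proj t ht)
      ((CDC.T_congr (v.quotKerEquivOfSurjective hv) (t + 1)).2 (hTI (t + 1) (by omega)))
  obtain ⟨m, hm⟩ := hgl
  have hpd : HasProjectiveDimensionLT (ModuleCat.of A (LinearMap.ker v)) (m + 1) :=
    have := hm (ModuleCat.of A (LinearMap.ker v))
    hasProjectiveDimensionLT_of_ge _ m (m + 1) (Nat.le_succ m)
  obtain ⟨x, hx1, hx2⟩ := hom_count h (CDC.Le (e i) ⧸ I) hI i y' hy' m (LinearMap.ker v) hpd hTK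
  refine ⟨fun j => (if j = i then 1 else 0) - (∑ t : Fin r, if σ t = j then (1 : ℤ) else 0) + x j, ?_, fun l => ?_⟩
  · have h1 : (∑ t : Fin r, if σ t = i then (1 : ℤ) else 0) = 0 :=
      Finset.sum_eq_zero fun t _ => if_neg (hσ t)
    have h2 : 0 ≤ x i := by
      rw [hx2]
      exact Int.natCast_nonneg _
    simp only [if_true, h1]
    linarith
  · have l1 := CDC.len_add k (h.idem l) (M := CDC.Le (e i)) I
    have l2 := CDC.len_add k (h.idem l) (M := CDC.XM e σ) (LinearMap.ker v)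
    have l3 := CDC.len_congr k (e l) (v.quotKerEquivOfSurjective hv)
    have l5 := tr_lenXM h σ l
    have l7 : CDC.len k (e l) (CDC.Le (e i)) = CDC.la k (e l) (e i) := CDC.len_Le k (e l) (e i) (h.idem i)
    have l8 := len_simple h (CDC.Le (e i) ⧸ I) hI i y' hy' l
    have e1 : ∀ j, ((if j = i then (1 : ℤ) else 0) - (∑ t : Fin r, if σ t = j then (1 : ℤ) else 0) + x j) *
          (CDC.la k (e l) (e j) : ℤ) =
        (if j = i then (CDC.la k (e l) (e j) : ℤ) else 0) -
        (∑ t : Fin r, if σ t = j then (1 : ℤ) else 0) * (CDC.la k (e l) (e j) : ℤ) +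
        x j * (CDC.la k (e l) (e j) : ℤ) := by
      intro j
      split_ifs <;> ring
    rw [Finset.sum_congr rfl fun j _ => e1 j, Finset.sum_add_distrib, Finset.sum_sub_distrib,
      tr_sum σ (fun j => (CDC.la k (e l) (e j) : ℤ)), ← hx1 l,
      ← l5, Finset.sum_ite_eq' Finset.univ i, if_pos (Finset.mem_univ i), ← l7]
    have m1 : (CDC.len k (e l) (CDC.Le (e i)) : ℤ) = CDC.len k (e l) I + CDC.len k (e l) (CDC.Le (e i) ⧸ I) := by
      exact_mod_cast l1
    have m2 : (CDC.len k (e l) (CDC.XM e σ) : ℤ) = CDC.len k (e l) (LinearMap.ker v) + CDC.len k (e l) I := by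
      rw [← l3]
      exact_mod_cast l2
    have m3 : (CDC.len k (e l) (CDC.Le (e i) ⧸ I) : ℤ) = if l = i then 1 else 0 := by
      rw [l8]
      push_cast
      rfl
    rw [← m3]
    linarith

/-- the entry above the diagonal: `Ext^t(S_i,S_j) = 0` for `t ≥ 1`, `i ≠ j` -/
theorem tri_off (h : Elem k e) (hgl : CDC.FinGl A) (i j : Fin n) (hij : i ≠ j)
    (hT : ∀ (M S : Type) [AddCommGroup M] [Module A M] [AddCommGroup S] [Module A S], IsSimpleModule A M →
      IsSimpleModule A S → (∃ y : M, e i • y ≠ 0) → (∃ y : S, e j • y ≠ 0) → ∀ t, 1 ≤ t → CDC.T A S M t) :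
    ∃ x : Fin n → ℤ, x j = 0 ∧ ∀ l, (if l = i then 1 else 0 : ℤ) = ∑ j, x j * (CDC.la k (e l) (e j) : ℤ) := by
  classical
  obtain ⟨I, hI, hIm, y, hy⟩ := exists_simple h i
  obtain ⟨I', hI', hIm', y', hy'⟩ := exists_simple h j
  have hL : Module.Finite k (CDC.Le (e i)) := tr_finLe _
  have hL' : Module.Finite k (CDC.Le (e j)) := tr_finLe _
  have hf : Module.Finite k (CDC.Le (e i) ⧸ I) := Module.Finite.of_surjective (I.mkQ.restrictScalars k) I.mkQ_surjective
  have hf' : Module.Finite k (CDC.Le (e j) ⧸ I') := Module.Finite.of_surjective (I'.mkQ.restrictScalars k) I'.mkQ_surjective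
  have hT' := hT (CDC.Le (e i) ⧸ I) (CDC.Le (e j) ⧸ I') hI hI' ⟨y, hy⟩ ⟨y', hy'⟩
  obtain ⟨m, hm⟩ := hgl
  have hpd : HasProjectiveDimensionLT (ModuleCat.of A (CDC.Le (e i) ⧸ I)) (m + 1) :=
    have := hm (ModuleCat.of A (CDC.Le (e i) ⧸ I))
    hasProjectiveDimensionLT_of_ge _ m (m + 1) (Nat.le_succ m)
  obtain ⟨x, hx1, hx2⟩ := hom_count h (CDC.Le (e j) ⧸ I') hI' j y' hy' m (CDC.Le (e i) ⧸ I) hpd hT'
  have hl := len_simple h (CDC.Le (e i) ⧸ I) hI i y hy
  have hl' := len_simple h (CDC.Le (e j) ⧸ I') hI' j y' hy'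
  refine ⟨x, ?_, fun l => ?_⟩
  · rw [hx2]
    -- no nonzero maps
    have kill : ∀ (S : Type) [AddCommGroup S] [Module k S] [Module A S] [IsScalarTower k A S] [Module.Finite k S] (a : A),
        CDC.len k a S = 0 → ∀ s : S, a • s = 0 := by
      intro S _ _ _ _ _ a ha s
      unfold CDC.len at ha
      rw [Module.length_eq_finrank] at ha
      simp only [ENat.toNat_coe] at ha
      have h1 : LinearMap.range (Algebra.lsmul k k S a) = ⊥ := Submodule.finrank_eq_zero.1 ha
      have h2 : Algebra.lsmul k k S a s ∈ LinearMap.range (Algebra.lsmul k k S a) := ⟨s, rfl⟩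
      rw [h1] at h2
      exact h2
    have h0 : ∀ f : (CDC.Le (e i) ⧸ I) →ₗ[A] (CDC.Le (e j) ⧸ I'), f = 0 := by
      intro f
      refine LinearMap.ext fun s => ?_
      have h1 : s = e i • s := by
        conv_lhs => rw [← one_smul A s, ← h.sum, Finset.sum_smul]
        rw [Finset.sum_eq_single i]
        · intro l _ hl2
          refine kill _ (e l) ?_ s
          rw [hl l, if_neg hl2]
        · intro h0
          exact absurd (Finset.mem_univ i) h0
      rw [h1, map_smul, LinearMap.zero_apply]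
      refine kill _ (e i) ?_ _
      rw [hl' i, if_neg hij]
    have hsub : Subsingleton ((CDC.Le (e i) ⧸ I) →ₗ[A] (CDC.Le (e j) ⧸ I')) := ⟨fun f g => (h0 f).trans (h0 g).symm⟩
    rw [Module.finrank_zero_of_subsingleton, Nat.cast_zero]
  · rw [← hx1 l, hl l, Nat.cast_ite, Nat.cast_one, Nat.cast_zero]

theorem cartan_tri (h : Elem k e) (hgl : CDC.FinGl A) (p : Fin n → Prop) [DecidablePred p]
    (hD : ∀ i, p i → ∃ x : Fin n → ℤ, 1 ≤ x i ∧
      ∀ l, (if l = i then 1 else 0 : ℤ) = ∑ j, x j * (CDC.la k (e l) (e j) : ℤ))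
    (hT2 : ∀ i j, p i → p j → i < j → ∀ (M S : Type) [AddCommGroup M] [Module A M] [AddCommGroup S] [Module A S],
      IsSimpleModule A M → IsSimpleModule A S → (∃ y : M, e i • y ≠ 0) → (∃ y : S, e j • y ≠ 0) →
      ∀ t, 1 ≤ t → CDC.T A S M t)
    (hpos : 0 < ((Matrix.of fun i j : Fin n => (CDC.la k (e i) (e j) : ℤ)).submatrix
      (Subtype.val : {j : Fin n // ¬ p j} → Fin n) Subtype.val).det) :
    Matrix.det (Matrix.of fun i j : Fin n => (CDC.la k (e i) (e j) : ℤ)) = 1 := by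
  classical
  set C : Matrix (Fin n) (Fin n) ℤ := Matrix.of fun i j : Fin n => (CDC.la k (e i) (e j) : ℤ) with hCdef
  have hu := det_unit h hgl
  rw [← hCdef] at hu
  have hne : C.det ≠ 0 := by
    rcases hu with h1 | h1 <;> rw [h1] <;> norm_num
  -- uniqueness
  have huni : ∀ (x x' : Fin n → ℤ), C.mulVec x = C.mulVec x' → x = x' := by
    intro x x' hxx
    have h1 := congrArg (fun v => C.adjugate.mulVec v) hxx
    simp only [Matrix.mulVec_mulVec, Matrix.adjugate_mul, Matrix.smul_mulVec, Matrix.one_mulVec] at h1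
    funext j
    have h2 := congrFun h1 j
    simp only [Pi.smul_apply, smul_eq_mul] at h2
    exact mul_left_cancel₀ hne h2
  have hex : ∀ i : Fin n, ∃ x : Fin n → ℤ, (p i → 1 ≤ x i) ∧
      (p i → ∀ l, (if l = i then 1 else 0 : ℤ) = ∑ j, x j * (CDC.la k (e l) (e j) : ℤ)) := by
    intro i
    by_cases hi : p i
    · obtain ⟨x, h1, h2⟩ := hD i hi
      exact ⟨x, fun _ => h1, fun _ => h2⟩
    · exact ⟨0, fun h' => absurd h' hi, fun h' => absurd h' hi⟩
  choose x hx1 hx2 using hex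
  have hmv : ∀ (z : Fin n → ℤ) (i : Fin n),
      (∀ l, (if l = i then 1 else 0 : ℤ) = ∑ j, z j * (CDC.la k (e l) (e j) : ℤ)) → C.mulVec z = Pi.single i 1 := by
    intro z i hz
    funext l
    rw [Matrix.mulVec, dotProduct, Pi.single_apply, hz l]
    exact Finset.sum_congr rfl fun j _ => mul_comm _ _
  have hpos' : 0 < C.det := by
    refine jac_pos C (Matrix.of fun j i => x i j) p ?_ ?_ ?_ hpos
    · intro l i hi
      rw [hx2 i hi l]
      exact Finset.sum_congr rfl fun j _ => mul_comm _ _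
    · intro i hi
      exact hx1 i hi
    · intro i j hi hj hij
      obtain ⟨z, hz1, hz2⟩ := tri_off h hgl i j (ne_of_lt hij) (hT2 i j hi hj hij)
      have h1 : x i = z := huni _ _ ((hmv _ i (hx2 i hi)).trans (hmv _ i hz2).symm)
      rw [Matrix.of_apply, h1]
      exact hz1
  rcases hu with h1 | h1
  · exact h1
  · rw [h1] at hpos'
    norm_num at hpos'

end Pool.Agent.CDN
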