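import Pool.Agent.Lib.MP_a20de0_al.CDN.Final
import Pool.Agent.Lib.MP_a20de0_al.CDN.ResThree
import Pool.Agent.Lib.MP_a20de0_al.CDN.Tri

set_option autoImplicit false

/-! CDN-GlFour.  Global dimension `≤ 4` and a common vertex `i` of the left and the right socle; final assembly. -/

namespace Pool.Agent.CDN
open CategoryTheory

/-- `A w`, `w = e_i w ≠ 0`, `J w = 0`, is a simple module, of projective dimension `≤ m` if `gldim A ≤ m + 1` -/
theorem socle_simple {k : Type} [Field k] {A : Type} [Ring A] [Algebra k A] {n : ℕ} {e : Fin n → A} (h : Elem k e) (m : ℕ)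
    (hgl : ∀ M : ModuleCat.{0} A, HasProjectiveDimensionLT M (m + 2)) (i : Fin n) (w : A) (hw : w ≠ 0)
    (hiw : e i * w = w) (hJw : ∀ x ∈ (⊥ : Ideal A).jacobson, x * w = 0) :
    ∃ N : ModuleCat.{0} A, IsSimpleModule A N ∧ (∃ y : N, e i • y ≠ 0) ∧ HasProjectiveDimensionLT N (m + 1) := by
  classical
  let S : Submodule A A := Submodule.span A {w}
  -- `a w = c w`
  have hc : ∀ a : A, ∃ c : k, a * w = c • w := by
    intro a
    obtain ⟨c, hc⟩ := h.elem a
    refine ⟨c i, ?_⟩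
    have h1 := hJw _ hc
    rw [sub_mul, sub_eq_zero] at h1
    rw [h1, Finset.sum_mul, Finset.sum_eq_single i]
    · rw [smul_mul_assoc, hiw]
    · intro j _ hj
      rw [smul_mul_assoc, ← hiw, ← mul_assoc, h.orth j i hj, zero_mul, smul_zero]
    · intro h0
      exact absurd (Finset.mem_univ i) h0
  have hw' : w ∈ S := Submodule.mem_span_singleton_self w
  have hS : IsSimpleModule A S := by
    rw [isSimpleModule_iff_toSpanSingleton_surjective]
    refine ⟨⟨⟨w, hw'⟩, 0, fun h0 => hw (congrArg Subtype.val h0)⟩, ?_⟩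
    rintro ⟨x, hx⟩ hx0 ⟨y, hy⟩
    obtain ⟨a, rfl⟩ := Submodule.mem_span_singleton.1 hx
    obtain ⟨b, rfl⟩ := Submodule.mem_span_singleton.1 hy
    obtain ⟨c, hc1⟩ := hc a
    have hc0 : c ≠ 0 := by
      rintro rfl
      apply hx0
      apply Subtype.ext
      change a * w = 0
      rw [hc1, zero_smul]
    refine ⟨b * algebraMap k A c⁻¹, ?_⟩
    apply Subtype.ext
    change b * algebraMap k A c⁻¹ * (a * w) = b * w
    rw [hc1, mul_assoc, ← Algebra.smul_def, smul_smul, inv_mul_cancel₀ hc0, one_smul]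
  let C : ShortComplex (ModuleCat.{0} A) :=
    ShortComplex.mk (ModuleCat.ofHom S.subtype) (ModuleCat.ofHom S.mkQ) (by
      ext x
      simp)
  have hC : C.ShortExact :=
    { exact := by
        rw [ShortComplex.moduleCat_exact_iff]
        intro x hx
        have hx' : S.mkQ x = 0 := hx
        rw [Submodule.mkQ_apply, Submodule.Quotient.mk_eq_zero] at hx'
        exact ⟨⟨x, hx'⟩, rfl⟩
      mono_f := (ModuleCat.mono_iff_injective _).2 S.subtype_injective
      epi_g := (ModuleCat.epi_iff_surjective _).2 S.mkQ_surjective }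
  have hP : Projective C.X₂ := by
    change Projective (ModuleCat.of A A)
    rw [← IsProjective.iff_projective]
    infer_instance
  refine ⟨C.X₁, hS, ⟨⟨w, hw'⟩, fun h0 => ?_⟩, (hC.hasProjectiveDimensionLT_X₃_iff m hP).1 (hgl _)⟩
  have h1 : e i * w = 0 := congrArg Subtype.val h0
  exact hw (hiw.symm.trans h1)

/-- a minor of size at most one is positive -/
theorem minor_pos (k : Type) [Field k] {A : Type} [Ring A] [Algebra k A] [Module.Finite k A] {n : ℕ} {e : Fin n → A}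
    (h : Elem k e) (p : Fin n → Prop) [DecidablePred p] (hp : ∀ a b, ¬ p a → ¬ p b → a = b) :
    0 < Matrix.det ((Matrix.of fun i j : Fin n => (CDC.la k (e i) (e j) : ℤ)).submatrix
      (Subtype.val : {j : Fin n // ¬ p j} → Fin n) Subtype.val) := by
  by_cases hx : ∃ a, ¬ p a
  · obtain ⟨a, ha⟩ := hx
    let E : Unique {j : Fin n // ¬ p j} :=
      { default := ⟨a, ha⟩, uniq := fun b => Subtype.ext (hp b.1 a b.2 ha) }
    rw [Matrix.det_unique, Matrix.submatrix_apply, Matrix.of_apply]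
    exact_mod_cast la_self_pos k (h.idem _) (h.ne _)
  · have : IsEmpty {j : Fin n // ¬ p j} := ⟨fun b => hx ⟨b.1, b.2⟩⟩
    rw [Matrix.det_isEmpty]
    exact one_pos

theorem cartan_ext (k : Type) [Field k] (A : Type) [Ring A] [Algebra k A] [Module.Finite k A] (n : ℕ)
    (e : Fin n → A) (h : Elem k e) (hgl : CDC.FinGl A) (V : Finset (Fin n))
    (hT1 : ∀ i ∈ V,
      (∀ S : ModuleCat.{0} A, IsSimpleModule A S → (∃ y : S, e i • y ≠ 0) → ∀ t, 3 ≤ t → ∀ x : Abelian.Ext S S t, x = 0) ∨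
      ((∀ M : ModuleCat.{0} A, HasProjectiveDimensionLT M 5) ∧ ∃ z w : A, z ≠ 0 ∧ w ≠ 0 ∧ z * e i = z ∧ e i * w = w ∧
        (∀ x ∈ (⊥ : Ideal A).jacobson, z * x = 0) ∧ ∀ x ∈ (⊥ : Ideal A).jacobson, x * w = 0))
    (hT2 : ∀ i ∈ V, ∀ j ∈ V, i < j → ∀ M S : ModuleCat.{0} A, IsSimpleModule A M → IsSimpleModule A S →
      (∃ y : M, e i • y ≠ 0) → (∃ y : S, e j • y ≠ 0) → ∀ t, 1 ≤ t → ∀ x : Abelian.Ext M S t, x = 0)
    (hpos : (∀ a b, a ∉ V → b ∉ V → a = b) ∨
      0 < ((Matrix.of fun i j : Fin n => (CDC.la k (e i) (e j) : ℤ)).submatrix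
        (Subtype.val : {j : Fin n // j ∉ V} → Fin n) Subtype.val).det) :
    Matrix.det (Matrix.of fun i j : Fin n => (CDC.la k (e i) (e j) : ℤ)) = 1 := by
  refine cartan_tri h hgl (fun i => i ∈ V) ?_ ?_ ?_
  · intro i hi
    rcases hT1 i hi with h1 | ⟨h4, z, w, hz, hw, hzi, hiw, hzJ, hJw⟩
    · exact tri_diag h hgl i (fun S _ _ hS hy t ht => h1 (ModuleCat.of A S) hS hy t ht)
    · obtain ⟨N, hN, ⟨y, hy⟩, hpd⟩ := socle_simple h 3 h4 i w hw hiw hJw
      exact relation_three h hgl i N hN y hy hpd z hz hzi hzJ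
  · intro i j hi hj hij M S _ _ _ _ hM hS hy hy' t ht
    exact hT2 i hi j hj hij (ModuleCat.of A M) (ModuleCat.of A S) hM hS hy hy' t ht
  · rcases hpos with h1 | h1
    · exact minor_pos k h (fun i => i ∈ V) h1
    · exact h1

end Pool.Agent.CDN
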