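import Pool.Agent.Lib.MP_a20de0_al.CDN.Cyc

set_option autoImplicit false

/-! CDN-IsTrA.  Traces of endomorphisms of finitely generated projective modules.
uniqueness: `i g p = (i p') (i' g p)`, `ftr_cyc`: `ftr ((i' g p) (i p')) = ftr (i' g (p i) p') = ftr (i' g p')`.
The same computation with an isomorphism gives `IsTr_congr`. -/

namespace Pool.Agent.CDN

variable {A : Type} [Ring A] {P : Type} [AddCommGroup P] [Module A P]

theorem IsTr_exists [Module.Projective A P] [Module.Finite A P] (g : P →ₗ[A] P) : ∃ t, IsTr P g t := by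
  obtain ⟨r, p, hp⟩ := Module.Finite.exists_fin' A P
  obtain ⟨i, hi⟩ := Module.projective_lifting_property p (LinearMap.id : P →ₗ[A] P) hp
  exact ⟨_, r, i, p, fun x => LinearMap.congr_fun hi x, rfl⟩

theorem IsTr_unique {g : P →ₗ[A] P} {t t' : A ⧸ Com A} (h : IsTr P g t) (h' : IsTr P g t') : t = t' := by
  obtain ⟨r, i, p, hip, rfl⟩ := h
  obtain ⟨r', i', p', hip', rfl⟩ := h'
  have h1 : i ∘ₗ g ∘ₗ p = (i ∘ₗ p') ∘ₗ (i' ∘ₗ g ∘ₗ p) := by
    ext1 x
    ext1
    simp only [LinearMap.comp_apply, hip']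
  have h2 : (i' ∘ₗ g ∘ₗ p) ∘ₗ (i ∘ₗ p') = i' ∘ₗ g ∘ₗ p' := by
    ext1 x
    ext1
    simp only [LinearMap.comp_apply, hip]
  rw [h1, ftr_cyc, h2]

theorem IsTr_congr {P' : Type} [AddCommGroup P'] [Module A P'] (φ : P ≃ₗ[A] P') {g : P →ₗ[A] P}
    {g' : P' →ₗ[A] P'} (hg : ∀ x, φ (g x) = g' (φ x)) {t : A ⧸ Com A} (h : IsTr P g t) : IsTr P' g' t := by
  obtain ⟨r, i, p, hip, rfl⟩ := h
  refine ⟨r, i ∘ₗ φ.symm.toLinearMap, φ.toLinearMap ∘ₗ p, ?_, ?_⟩
  · intro x
    simp only [LinearMap.comp_apply, LinearEquiv.coe_coe, hip, LinearEquiv.apply_symm_apply]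
  · congr 1
    ext1 x
    ext1
    simp only [LinearMap.comp_apply, LinearEquiv.coe_coe, ← hg, LinearEquiv.symm_apply_apply]

theorem IsTr_zero [Module.Projective A P] [Module.Finite A P] : IsTr P (0 : P →ₗ[A] P) 0 := by
  obtain ⟨t, ht⟩ := IsTr_exists (A := A) (P := P) 0
  have h0 : t = 0 := by
    obtain ⟨r, i, p, _, h⟩ := ht
    rw [h, LinearMap.zero_comp, LinearMap.comp_zero]
    unfold ftr
    simp only [LinearMap.zero_apply, Pi.zero_apply, Finset.sum_const_zero]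
    rfl
  rw [h0] at ht
  exact ht

theorem IsTr_proj {g : P →ₗ[A] P} {t : A ⧸ Com A} (h : IsTr P g t) :
    Module.Projective A P ∧ Module.Finite A P := by
  obtain ⟨r, i, p, hip, _⟩ := h
  have h1 : p ∘ₗ i = LinearMap.id := LinearMap.ext hip
  exact ⟨Module.Projective.of_split i p h1, Module.Finite.of_surjective p fun x => ⟨i x, hip x⟩⟩

/-- right multiplication by `x` on `A` has trace `cl x` -/
theorem IsTr_right (x : A) : IsTr A (LinearMap.toSpanSingleton A A x) (cl x) := by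
  refine ⟨1, (LinearEquiv.funUnique (Fin 1) A A).symm.toLinearMap, (LinearEquiv.funUnique (Fin 1) A A).toLinearMap, ?_, ?_⟩
  · intro y
    exact LinearEquiv.apply_symm_apply _ y
  · unfold ftr
    congr 1
    simp

end Pool.Agent.CDN
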