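import Pool.Agent.Lib.MP_a20de0_al.CDN.Cyc

set_option autoImplicit false

/-! CDN-IsTrB.  Block triangular endomorphisms of `P × P'`.  With `(r, i, p)`, `(r', i', p')` for `P`, `P'` take
`Fin (r + r') → A` (`Fin.append`/`Fin.addCases`, `Fin.sum_univ_add`, `Fin.castAdd`, `Fin.natAdd`). -/

namespace Pool.Agent.CDN

/-- the inclusion of `P × P'` -/
private def IsTrB_I {A : Type} [Ring A] {P P' : Type} [AddCommGroup P] [Module A P] [AddCommGroup P'] [Module A P']
    {r r' : ℕ} (i : P →ₗ[A] (Fin r → A)) (i' : P' →ₗ[A] (Fin r' → A)) : (P × P') →ₗ[A] (Fin (r + r') → A) where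
  toFun x := Fin.append (i x.1) (i' x.2)
  map_add' x y := by
    funext s
    refine Fin.addCases (fun a => ?_) (fun b => ?_) s
    · simp [Fin.append_left]
    · simp [Fin.append_right]
  map_smul' c x := by
    funext s
    refine Fin.addCases (fun a => ?_) (fun b => ?_) s
    · simp [Fin.append_left]
    · simp [Fin.append_right]

/-- the projection on `P × P'` -/
private def IsTrB_p {A : Type} [Ring A] {P P' : Type} [AddCommGroup P] [Module A P] [AddCommGroup P'] [Module A P']
    {r r' : ℕ} (p : (Fin r → A) →ₗ[A] P) (p' : (Fin r' → A) →ₗ[A] P') : (Fin (r + r') → A) →ₗ[A] (P × P') :=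
  LinearMap.prod (p ∘ₗ LinearMap.funLeft A A (Fin.castAdd r')) (p' ∘ₗ LinearMap.funLeft A A (Fin.natAdd r))

private theorem IsTrB_left {A : Type} [Ring A] {r r' : ℕ} (a : Fin r) :
    (fun b : Fin r => (Pi.single (Fin.castAdd r' a) (1 : A) : Fin (r + r') → A) (Fin.castAdd r' b)) = Pi.single a 1 := by
  funext b
  by_cases h : b = a
  · subst h; simp
  · rw [Pi.single_eq_of_ne h, Pi.single_eq_of_ne]
    intro h'
    exact h (Fin.castAdd_injective r r' h')

private theorem IsTrB_left0 {A : Type} [Ring A] {r r' : ℕ} (a : Fin r) :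
    (fun b : Fin r' => (Pi.single (Fin.castAdd r' a) (1 : A) : Fin (r + r') → A) (Fin.natAdd r b)) = 0 := by
  funext b
  rw [Pi.single_eq_of_ne]
  · rfl
  · intro h
    have h1 := congrArg Fin.val h
    simp only [Fin.val_natAdd, Fin.val_castAdd] at h1
    omega

private theorem IsTrB_right {A : Type} [Ring A] {r r' : ℕ} (a : Fin r') :
    (fun b : Fin r' => (Pi.single (Fin.natAdd r a) (1 : A) : Fin (r + r') → A) (Fin.natAdd r b)) = Pi.single a 1 := by
  funext b
  by_cases h : b = a
  · subst h; simp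
  · rw [Pi.single_eq_of_ne h, Pi.single_eq_of_ne]
    intro h'
    exact h (Fin.natAdd_injective r' r h')

private theorem IsTrB_right0 {A : Type} [Ring A] {r r' : ℕ} (a : Fin r') :
    (fun b : Fin r => (Pi.single (Fin.natAdd r a) (1 : A) : Fin (r + r') → A) (Fin.castAdd r' b)) = 0 := by
  funext b
  rw [Pi.single_eq_of_ne]
  · rfl
  · intro h
    have h1 := congrArg Fin.val h
    simp only [Fin.val_natAdd, Fin.val_castAdd] at h1
    omega

theorem IsTr_block {A : Type} [Ring A] {P P' : Type} [AddCommGroup P] [Module A P] [AddCommGroup P'] [Module A P']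
    {g : P →ₗ[A] P} {g' : P' →ₗ[A] P'} (ν : P' →ₗ[A] P) {t t' : A ⧸ Com A}
    (h : IsTr P g t) (h' : IsTr P' g' t') :
    IsTr (P × P') (LinearMap.prod (g ∘ₗ LinearMap.fst A P P' + ν ∘ₗ LinearMap.snd A P P')
      (g' ∘ₗ LinearMap.snd A P P')) (t + t') := by
  obtain ⟨r, i, p, hip, rfl⟩ := h
  obtain ⟨r', i', p', hip', rfl⟩ := h'
  refine ⟨r + r', IsTrB_I i i', IsTrB_p p p', ?_, ?_⟩
  · intro x
    have h1 : (fun b : Fin r => (IsTrB_I i i' x) (Fin.castAdd r' b)) = i x.1 := by
      funext b
      exact Fin.append_left _ _ b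
    have h2 : (fun b : Fin r' => (IsTrB_I i i' x) (Fin.natAdd r b)) = i' x.2 := by
      funext b
      exact Fin.append_right _ _ b
    refine Prod.ext ?_ ?_
    · show p (fun b : Fin r => (IsTrB_I i i' x) (Fin.castAdd r' b)) = x.1
      rw [h1, hip]
    · show p' (fun b : Fin r' => (IsTrB_I i i' x) (Fin.natAdd r b)) = x.2
      rw [h2, hip']
  · unfold ftr
    rw [← cl_add, Fin.sum_univ_add]
    congr 1
    refine congrArg₂ (· + ·) ?_ ?_
    · refine Finset.sum_congr rfl fun a _ => ?_
      have h1 : IsTrB_p p p' (Pi.single (Fin.castAdd r' a) 1) = (p (Pi.single a 1), 0) := by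
        refine Prod.ext ?_ ?_
        · show p (fun b : Fin r => (Pi.single (Fin.castAdd r' a) (1 : A) : Fin (r + r') → A) (Fin.castAdd r' b)) = _
          rw [IsTrB_left]
        · show p' (fun b : Fin r' => (Pi.single (Fin.castAdd r' a) (1 : A) : Fin (r + r') → A) (Fin.natAdd r b)) = _
          rw [IsTrB_left0, map_zero]
      rw [LinearMap.comp_apply, LinearMap.comp_apply, LinearMap.comp_apply, LinearMap.comp_apply, h1]
      show _ = Fin.append (i (g (p (Pi.single a 1)) + ν 0)) (i' (g' 0)) (Fin.castAdd r' a)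
      rw [Fin.append_left, map_zero, add_zero]
    · refine Finset.sum_congr rfl fun a _ => ?_
      have h1 : IsTrB_p p p' (Pi.single (Fin.natAdd r a) 1) = (0, p' (Pi.single a 1)) := by
        refine Prod.ext ?_ ?_
        · show p (fun b : Fin r => (Pi.single (Fin.natAdd r a) (1 : A) : Fin (r + r') → A) (Fin.castAdd r' b)) = _
          rw [IsTrB_right0, map_zero]
        · show p' (fun b : Fin r' => (Pi.single (Fin.natAdd r a) (1 : A) : Fin (r + r') → A) (Fin.natAdd r b)) = _
          rw [IsTrB_right]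
      rw [LinearMap.comp_apply, LinearMap.comp_apply, LinearMap.comp_apply, LinearMap.comp_apply, h1]
      show _ = Fin.append (i (g 0 + ν (p' (Pi.single a 1)))) (i' (g' (p' (Pi.single a 1)))) (Fin.natAdd r a)
      rw [Fin.append_right]

end Pool.Agent.CDN
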