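import Pool.Agent.Lib.MP_a20de0_al.CDN.El
import Pool.Agent.Lib.MP_a20de0_al.CDC.SLen
import Pool.Agent.Lib.MP_a20de0_al.CDC.Rad

set_option autoImplicit false

/-! CDN-LenS.  `exists_simple`: `I = {x ∈ A e_i | x ∈ J}` is a maximal submodule of the local module `A e_i` (`el_loc`; `x ∈ A e_i`, `x ∉ J`: some `a` with `e_i a x ∉ J`, a unit of
`e_i A e_i`; or use `CDC.mem_jac_iff`), and `e_i • (class of e_i) ≠ 0`.
`len_simple`: `N` simple, `e_i y ≠ 0`: `N ≅ A e_i / I` (`CDC.simple_unique`), `CDC.len_simple_self` and `e_i A e_i = k e_i + e_i J e_i` (`el_scalar`), so the length is `1`;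
`e_j A e_i ⊆ J` (`el_rad`) kills `N` for `j ≠ i`. -/

namespace Pool.Agent.CDN

variable {k : Type} [Field k] {A : Type} [Ring A] [Algebra k A] [Module.Finite k A] {n : ℕ} {e : Fin n → A}

private theorem ls_kill {N : Type} [AddCommGroup N] [Module A N] (hN : IsSimpleModule A N)
    {j : A} (hj : j ∈ (⊥ : Ideal A).jacobson) (x : N) : j • x = 0 := by
  rw [Ideal.jacobson_bot] at hj
  have := hN
  have h := IsSemisimpleModule.jacobson_le_annihilator A N hj
  exact Module.mem_annihilator.1 h x

private theorem ls_mul_c {c : A} (hc : IsIdempotentElem c) (w : CDC.Le c) : w.1 * c = w.1 := by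
  obtain ⟨a, ha⟩ := Submodule.mem_span_singleton.1 w.2
  rw [← ha, smul_eq_mul, mul_assoc, hc.eq]

private theorem ls_not_mem (h : Elem k e) (i : Fin n) : e i ∉ (⊥ : Ideal A).jacobson := by
  intro hi
  obtain ⟨m, hm⟩ := jac_nilp (k := k) hi
  rcases Nat.eq_zero_or_pos m with h0 | h0
  · subst h0
    rw [pow_zero] at hm
    apply h.ne i
    have : e i * 1 = e i * 0 := by rw [hm]
    simpa using this
  · obtain ⟨m', rfl⟩ := Nat.exists_eq_succ_of_ne_zero h0.ne'
    rw [(h.idem i).pow_succ_eq] at hm
    exact h.ne i hm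

theorem exists_simple (h : Elem k e) (i : Fin n) : ∃ I : Submodule A (CDC.Le (e i)),
    IsSimpleModule A (CDC.Le (e i) ⧸ I) ∧ (∀ x : CDC.Le (e i), x ∈ I ↔ (x : A) ∈ (⊥ : Ideal A).jacobson) ∧
      ∃ y : CDC.Le (e i) ⧸ I, e i • y ≠ 0 := by
  have : IsArtinianRing A := isArtinian_of_tower k inferInstance
  have hc := h.idem i
  let g : CDC.Le (e i) := ⟨e i, Submodule.mem_span_singleton_self (e i)⟩
  let I : Submodule A (CDC.Le (e i)) :=
    Submodule.comap (Submodule.subtype (Submodule.span A ({e i} : Set A))) ((⊥ : Ideal A).jacobson)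
  have hI : ∀ x : CDC.Le (e i), x ∈ I ↔ (x : A) ∈ (⊥ : Ideal A).jacobson := fun x => Iff.rfl
  have hg : g ∉ I := fun hgI => ls_not_mem h i ((hI g).1 hgI)
  refine ⟨I, ?_, hI, Submodule.Quotient.mk g, ?_⟩
  · rw [isSimpleModule_iff_isCoatom]
    refine ⟨fun htop => hg (by rw [htop]; exact Submodule.mem_top), ?_⟩
    intro W hW
    obtain ⟨x, hxW, hxI⟩ := SetLike.exists_of_lt hW
    have hxJ : (x : A) ∉ (⊥ : Ideal A).jacobson := fun hx => hxI ((hI x).2 hx)
    have hxc : x.1 * e i = x.1 := ls_mul_c hc x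
    have h1 : e i * x.1 ∉ (⊥ : Ideal A).jacobson := by
      intro h2
      apply hxJ
      have h3 : x.1 = ∑ j, e j * x.1 := by
        rw [← Finset.sum_mul, h.sum, one_mul]
      rw [h3]
      refine Ideal.sum_mem _ fun j _ => ?_
      by_cases hj : j = i
      · rw [hj]; exact h2
      · rw [← hxc, ← mul_assoc]
        exact el_rad h j i hj x.1
    have h2 : e i * (e i * x.1) * e i = e i * x.1 := by
      rw [← mul_assoc (e i) (e i), hc.eq, mul_assoc, hxc]
    have h3 : ∃ y, e i * y * e i = y ∧ (e i * x.1) * y = e i ∧ y * (e i * x.1) = e i := by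
      by_contra hno
      exact h1 ((CDC.mem_jac_iff hc (el_loc h i) _ h2).2 hno)
    obtain ⟨y, -, -, hy⟩ := h3
    have hgW : g ∈ W := by
      have h4 : g = (y * e i) • x := Subtype.ext (by
        show e i = (y * e i) * x.1
        rw [mul_assoc, hy])
      rw [h4]
      exact W.smul_mem _ hxW
    rw [Submodule.eq_top_iff']
    intro w
    obtain ⟨a, ha⟩ := Submodule.mem_span_singleton.1 w.2
    have : w = a • g := Subtype.ext (by simpa [g] using ha.symm)
    rw [this]
    exact W.smul_mem _ hgW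
  · rw [← Submodule.Quotient.mk_smul, Ne, Submodule.Quotient.mk_eq_zero]
    have h3 : e i • g = g := Subtype.ext hc.eq
    rwa [h3]

theorem len_simple (h : Elem k e) (N : Type) [AddCommGroup N] [Module k N] [Module A N] [IsScalarTower k A N]
    (hN : IsSimpleModule A N) (i : Fin n) (y : N) (hy : e i • y ≠ 0) (j : Fin n) :
    CDC.len k (e j) N = if j = i then 1 else 0 := by
  have := hN
  have hsur := IsSimpleModule.toSpanSingleton_surjective A hy
  split_ifs with hj
  · subst hj
    have hrange : LinearMap.range (Algebra.lsmul k k N (e j)) = Submodule.span k {e j • y} := by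
      apply le_antisymm
      · rintro _ ⟨x, rfl⟩
        obtain ⟨a, ha⟩ := hsur x
        obtain ⟨c, hc⟩ := el_scalar h j a
        have h1 := ls_kill hN hc y
        rw [sub_smul, sub_eq_zero] at h1
        rw [Submodule.mem_span_singleton]
        refine ⟨c, ?_⟩
        rw [← ha, LinearMap.toSpanSingleton_apply]
        change c • e j • y = e j • (a • (e j • y))
        rw [smul_smul a, smul_smul (e j), ← mul_assoc, h1, smul_assoc]
      · rw [Submodule.span_singleton_le_iff_mem]
        exact ⟨y, rfl⟩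
    unfold CDC.len
    rw [hrange, Module.length_eq_finrank, finrank_span_singleton hy]
    rfl
  · apply CDC.len_of_kill
    intro x
    obtain ⟨a, ha⟩ := hsur x
    rw [← ha, LinearMap.toSpanSingleton_apply, smul_smul a, smul_smul (e j), ← mul_assoc]
    exact ls_kill hN (el_rad h j i hj a) y

end Pool.Agent.CDN
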