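import Pool.Agent.Lib.MP_a20de0_al.CDN.TrBasic

set_option autoImplicit false

/-! CDN-TrZero.  The zero endomorphism has trace `0`.  Induction on `k`: `k = 0`: `M` is zero.  `k = 1`: `M` is projective, `P = M`, `g = 0`.
`k + 2`: `P = Fin r → A` onto `M`, `g = 0`, the kernel is finitely generated of projective dimension `< k + 1`
(see Mathlib/CategoryTheory/Abelian/Projective/Dimension.lean, `ShortExact.hasProjectiveDimensionLT_X₃_iff` or similar). -/

namespace Pool.Agent.CDN
open CategoryTheory

theorem Tr_zero {A : Type} [Ring A] [IsNoetherianRing A] (k : ℕ) : ∀ (M : Type) [AddCommGroup M] [Module A M]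
    [Module.Finite A M], HasProjectiveDimensionLT (ModuleCat.of A M) k → Tr k M (0 : M →ₗ[A] M) 0 := by
  induction k with
  | zero =>
    intro M _ _ _ h
    have hz := (hasProjectiveDimensionLT_zero_iff_isZero _).1 h
    exact ⟨ModuleCat.isZero_of_iff_subsingleton.1 hz, rfl⟩
  | succ k ih =>
    intro M _ _ _ h
    cases k with
    | zero =>
      have hp : Projective (ModuleCat.of A M) := projective_iff_hasProjectiveDimensionLT_one.2 h
      have hP : Module.Projective A M := (IsProjective.iff_projective M).2 hp
      exact Tr_of_proj IsTr_zero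
    | succ k =>
      obtain ⟨r, π, hπ⟩ := Module.Finite.exists_fin' A M
      have hS : π.shortComplexKer.ShortExact := LinearMap.shortExact_shortComplexKer hπ
      have h2 : Projective π.shortComplexKer.X₂ :=
        (IsProjective.iff_projective (Fin r → A)).1 inferInstance
      have h3 : HasProjectiveDimensionLT (ModuleCat.of A (LinearMap.ker π)) (k + 1) :=
        (hS.hasProjectiveDimensionLT_X₃_iff k h2).1 h
      have hk := ih (LinearMap.ker π) h3
      refine ⟨(Fin r → A), inferInstance, inferInstance, π, 0, fun x => by simp, 0, 0, hπ, IsTr_zero, ?_, by simp⟩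
      exact hk

end Pool.Agent.CDN
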