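import Pool.Agent.Lib.MP_a20de0_al.CDN.TrUni
import Pool.Agent.Lib.MP_a20de0_al.CDN.TrZero

set_option autoImplicit false

/-! CDN-Nil.  Lenzing: in a Noetherian ring of finite global dimension nilpotent elements are sums of commutators. -/

namespace Pool.Agent.CDN
open CategoryTheory

theorem Tr_nilp {A : Type} [Ring A] [IsNoetherianRing A] (m : ℕ)
    (hm : ∀ M : ModuleCat.{0} A, HasProjectiveDimensionLT M m) (N : ℕ) :
    ∀ (M : Type) [AddCommGroup M] [Module A M] [Module.Finite A M] (f : M →ₗ[A] M), f ^ N = 0 → Tr m M f 0 := by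
  induction N with
  | zero =>
    intro M _ _ _ f hf
    have hsub : Subsingleton M := by
      refine subsingleton_of_forall_eq 0 fun x => ?_
      have h1 := LinearMap.congr_fun hf x
      rw [pow_zero] at h1
      exact h1
    have h0 : Tr 0 M f 0 := ⟨hsub, rfl⟩
    exact Tr_mono (Nat.zero_le m) h0
  | succ N ih =>
    intro M _ _ _ f hf
    have hnoe : IsNoetherian A M := isNoetherian_of_isNoetherianRing_of_finite A M
    have hfin : Module.Finite A (LinearMap.range f) := Module.IsNoetherian.finite A _
    let fN : LinearMap.range f →ₗ[A] LinearMap.range f :=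
      f.restrict (fun x _ => LinearMap.mem_range_self f x)
    have hpow : ∀ n : ℕ, ∀ x : LinearMap.range f, (((fN ^ n) x : LinearMap.range f) : M) = (f ^ n) (x : M) := by
      intro n
      induction n with
      | zero => intro x; rfl
      | succ n ihn =>
        intro x
        rw [pow_succ, pow_succ]
        exact ihn (fN x)
    have hN : fN ^ N = 0 := by
      ext x
      obtain ⟨y, hy⟩ := x.2
      rw [hpow N x, ← hy]
      have h2 := LinearMap.congr_fun hf y
      rw [pow_succ] at h2
      exact h2
    have h1 : Tr m (LinearMap.range f) fN 0 := ih _ fN hN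
    have h2 : Tr m (M ⧸ LinearMap.range f) (0 : (M ⧸ LinearMap.range f) →ₗ[A] (M ⧸ LinearMap.range f)) 0 :=
      Tr_zero m _ (hm _)
    have h3 := Tr_add m (LinearMap.range f).subtype (LinearMap.range f).mkQ (f := f)
      (Submodule.subtype_injective _) (Submodule.mkQ_surjective _)
      (by rw [Submodule.range_subtype, Submodule.ker_mkQ]) (fun x => rfl)
      (fun x => by
        rw [LinearMap.zero_apply, Submodule.mkQ_apply, Submodule.Quotient.mk_eq_zero]
        exact LinearMap.mem_range_self f x) h1 h2
    rw [add_zero] at h3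
    exact h3

theorem nil_com {A : Type} [Ring A] [IsNoetherianRing A] (hgl : CDC.FinGl A) {x : A} (hx : IsNilpotent x) :
    x ∈ Com A := by
  obtain ⟨m, hm⟩ := hgl
  obtain ⟨N, hN⟩ := hx
  have hpow : ∀ n : ℕ, ∀ a : A, ((LinearMap.toSpanSingleton A A x) ^ n) a = a * x ^ n := by
    intro n
    induction n with
    | zero => intro a; simp
    | succ n ih =>
      intro a
      rw [pow_succ, pow_succ']
      have h1 : ((LinearMap.toSpanSingleton A A x) ^ n * LinearMap.toSpanSingleton A A x) a =
          ((LinearMap.toSpanSingleton A A x) ^ n) (a * x) := rfl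
      rw [h1, ih, mul_assoc]
  have hf : (LinearMap.toSpanSingleton A A x) ^ N = 0 := by
    ext
    rw [hpow, hN, mul_zero]
    rfl
  have h1 : Tr m A (LinearMap.toSpanSingleton A A x) 0 := Tr_nilp m hm N A _ hf
  have h2 : Tr 1 A (LinearMap.toSpanSingleton A A x) (cl x) := Tr_of_proj (IsTr_right x)
  have h3 := Tr_unique (max m 1) (Tr_mono (le_max_left _ _) h1) (Tr_mono (le_max_right _ _) h2)
  exact (QuotientAddGroup.eq_zero_iff x).1 h3.symm

end Pool.Agent.CDN
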