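import Pool.Agent.Lib.MP_a20de0_al.CDN.El
import Pool.Agent.Lib.MP_a20de0_al.CDN.Nil

set_option autoImplicit false

/-! CDN-NoLoop.  `Com A ⊆ {a | e_i a e_i ∈ J^2}`: for `a = b c - c b`: `e_i b c e_i = ∑_j (e_i b e_j)(e_j c e_i)`; the terms `j ≠ i` are in `J^2` (`el_rad`);
`e_i b e_i = β e_i + y`, `e_i c e_i = γ e_i + z` (`el_scalar`), so the `j = i` terms give `y z - z y`.  With `nil_com`. -/

namespace Pool.Agent.CDN

private theorem corner_sum {k : Type} [Field k] {A : Type} [Ring A] [Algebra k A] {n : ℕ}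
    {e : Fin n → A} (h : Elem k e) (i : Fin n) (b c : A) :
    e i * (b * c) * e i = ∑ j, (e i * b * e j) * (e j * c * e i) := by
  have h1 : ∀ j, (e i * b * e j) * (e j * c * e i) = (e i * b) * e j * (c * e i) := by
    intro j
    have : e j * e j = e j := h.idem j
    calc (e i * b * e j) * (e j * c * e i) = (e i * b) * (e j * e j) * (c * e i) := by
          simp only [mul_assoc]
      _ = (e i * b) * e j * (c * e i) := by rw [this]
  simp only [h1]
  rw [← Finset.sum_mul, ← Finset.mul_sum, h.sum, mul_one]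
  simp only [mul_assoc]

private theorem corner_comm {k : Type} [Field k] {A : Type} [Ring A] [Algebra k A] {n : ℕ}
    {e : Fin n → A} (h : Elem k e) (i : Fin n) (b c : A) :
    e i * (b * c - c * b) * e i ∈ J2 A := by
  rw [mul_sub, sub_mul, corner_sum h, corner_sum h, ← Finset.sum_sub_distrib]
  refine AddSubgroup.sum_mem _ (fun j _ => ?_)
  have hid : e i * e i = e i := h.idem i
  by_cases hij : i = j
  · subst hij
    obtain ⟨β, hβ⟩ := el_scalar h i b
    obtain ⟨γ, hγ⟩ := el_scalar h i c
    have eU : e i * (e i * b * e i) = e i * b * e i := by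
      rw [← mul_assoc, ← mul_assoc, hid]
    have Ue : (e i * b * e i) * e i = e i * b * e i := by
      rw [mul_assoc, hid]
    have eV : e i * (e i * c * e i) = e i * c * e i := by
      rw [← mul_assoc, ← mul_assoc, hid]
    have Ve : (e i * c * e i) * e i = e i * c * e i := by
      rw [mul_assoc, hid]
    generalize e i * b * e i = U at *
    generalize e i * c * e i = V at *
    have key : U * V - V * U = (U - β • e i) * (V - γ • e i) - (V - γ • e i) * (U - β • e i) := by
      simp only [mul_sub, sub_mul, smul_mul_assoc, mul_smul_comm, eU, Ue, eV, Ve, hid]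
      simp only [smul_sub]
      rw [smul_comm γ β (e i)]
      abel
    rw [key]
    exact AddSubgroup.sub_mem _ (AddSubgroup.subset_closure ⟨_, _, hβ, hγ, rfl⟩)
      (AddSubgroup.subset_closure ⟨_, _, hγ, hβ, rfl⟩)
  · exact AddSubgroup.sub_mem _
      (AddSubgroup.subset_closure ⟨_, _, el_rad h i j hij b, el_rad h j i (Ne.symm hij) c, rfl⟩)
      (AddSubgroup.subset_closure ⟨_, _, el_rad h i j hij c, el_rad h j i (Ne.symm hij) b, rfl⟩)

theorem no_loop {k : Type} [Field k] {A : Type} [Ring A] [Algebra k A] [Module.Finite k A] {n : ℕ} {e : Fin n → A}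
    (h : Elem k e) (hgl : CDC.FinGl A) (i : Fin n) {x : A} (hx : x ∈ (⊥ : Ideal A).jacobson)
    (hxi : e i * x * e i = x) : x ∈ J2 A := by
  have h1 : IsNoetherian k A := isNoetherian_of_isNoetherianRing_of_finite k A
  have : IsNoetherianRing A := isNoetherian_of_tower k h1
  have hnil : IsNilpotent x := jac_nilp (k := k) hx
  have hcom : x ∈ Com A := nil_com hgl hnil
  let φ : A →+ A := (AddMonoidHom.mulRight (e i)).comp (AddMonoidHom.mulLeft (e i))
  have hφ : ∀ a, φ a = e i * a * e i := fun a => rfl
  have hle : Com A ≤ (J2 A).comap φ := by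
    unfold Com
    rw [AddSubgroup.closure_le]
    rintro _ ⟨b, c, rfl⟩
    change φ (b * c - c * b) ∈ J2 A
    rw [hφ]
    exact corner_comm h i b c
  have := hle hcom
  rw [AddSubgroup.mem_comap, hφ, hxi] at this
  exact this

end Pool.Agent.CDN
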