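import Pool.Agent.Lib.MP_a20de0_al.CDN.Cover
import Pool.Agent.Lib.MP_a20de0_al.CDN.QAll

set_option autoImplicit false

/-! CDN-Res.  `N` simple with `e_i N ≠ 0` and projective dimension `≤ 2`.  `N ≅ A e_i / I`, `I = J e_i` (`exists_simple`, `CDC.simple_unique`), so `I` has projective
dimension `≤ 1`; `u : X → A e_i` of `cover` has range `I`, its kernel `K` is projective, `K ≅ XM e τ` (`CDC.KS`).  Lengths (`CDC.len_add`, `CDC.len_pi`, `CDC.len_Le`,
`len_simple`): `δ_li = C_li - ∑_t C_l(σ t) + ∑_t C_l(τ t)`, and `σ t ≠ i`; `a = #{t | τ t = i}`. -/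

namespace Pool.Agent.CDN
open CategoryTheory

private theorem res_finLe {k : Type} [Field k] {A : Type} [Ring A] [Algebra k A] [Module.Finite k A] (a : A) :
    Module.Finite k (CDC.Le a) := by
  have h : Module.Finite k ((Submodule.span A ({a} : Set A)).restrictScalars k) := inferInstance
  exact h

private theorem res_lenXM {k : Type} [Field k] {A : Type} [Ring A] [Algebra k A] [Module.Finite k A] {n : ℕ} {e : Fin n → A}
    (h : Elem k e) {r : ℕ} (σ : Fin r → Fin n) (l : Fin n) :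
    (CDC.len k (e l) (CDC.XM e σ) : ℤ) = ∑ t, (CDC.la k (e l) (e (σ t)) : ℤ) := by
  have hf : ∀ t : Fin r, Module.Finite k (CDC.Le (e (σ t))) := fun t => res_finLe _
  have h1 := CDC.len_pi k (h.idem l) (fun t => CDC.Le (e (σ t)))
  have h2 : CDC.len k (e l) (CDC.XM e σ) = ∑ t, CDC.la k (e l) (e (σ t)) := by
    refine Eq.trans h1 (Finset.sum_congr rfl fun t _ => ?_)
    exact CDC.len_Le k (e l) (e (σ t)) (h.idem _)
  rw [h2, Nat.cast_sum]

private theorem res_sum {n r : ℕ} (σ : Fin r → Fin n) (c : Fin n → ℤ) :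
    ∑ j, (∑ t : Fin r, if σ t = j then (1 : ℤ) else 0) * c j = ∑ t, c (σ t) := by
  classical
  simp only [Finset.sum_mul]
  rw [Finset.sum_comm]
  refine Finset.sum_congr rfl fun t _ => ?_
  rw [Finset.sum_eq_single (σ t)]
  · simp
  · intro j _ hj
    rw [if_neg (fun h => hj h.symm), zero_mul]
  · intro h
    exact absurd (Finset.mem_univ _) h

theorem relation {k : Type} [Field k] {A : Type} [Ring A] [Algebra k A] [Module.Finite k A] {n : ℕ} {e : Fin n → A}
    (h : Elem k e) (hgl : CDC.FinGl A) (i : Fin n) (N : ModuleCat.{0} A) (hN : IsSimpleModule A N)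
    (y : N) (hy : e i • y ≠ 0) (hpd : HasProjectiveDimensionLT N 3) :
    ∃ x : Fin n → ℤ, 1 ≤ x i ∧ ∀ l, (if l = i then 1 else 0 : ℤ) = ∑ j, x j * (CDC.la k (e l) (e j) : ℤ) := by
  classical
  obtain ⟨I, hI, hIm, y', hy'⟩ := exists_simple h i
  obtain ⟨φ⟩ := CDC.simple_unique (h.idem i) (el_loc h i) hI hN y' hy' y hy
  have hL : Module.Finite k (CDC.Le (e i)) := res_finLe _
  have hpd1 : HasProjectiveDimensionLT (ModuleCat.of A (CDC.Le (e i) ⧸ I)) 3 :=
    hasProjectiveDimensionLT_of_iso (X := N) φ.symm.toModuleIso 3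
  have hLp : Module.Projective A (CDC.Le (e i)) := CDC.proj_Le (h.idem i)
  have hLp' : Projective (ModuleCat.of A (CDC.Le (e i))) := (IsProjective.iff_projective _).1 hLp
  have hS := LinearMap.shortExact_shortComplexKer (f := I.mkQ) I.mkQ_surjective
  have hK1 : HasProjectiveDimensionLT (ModuleCat.of A (LinearMap.ker I.mkQ)) 2 :=
    (hS.hasProjectiveDimensionLT_X₃_iff 1 hLp').1 hpd1
  rw [Submodule.ker_mkQ] at hK1
  obtain ⟨r, σ, u, hσ, hu⟩ := cover h hgl i
  have hur : ∀ x, u x ∈ I := fun x => (hIm _).2 ((hu _).1 ⟨x, rfl⟩)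
  let v : CDC.XM e σ →ₗ[A] I := u.codRestrict I hur
  have hv : Function.Surjective v := by
    intro z
    obtain ⟨x, hx⟩ := (hu z.1).2 ((hIm z.1).1 z.2)
    exact ⟨x, Subtype.ext hx⟩
  have hXp : Module.Projective A (CDC.XM e σ) := CDC.proj_XM h.idem σ
  have hXp' : Projective (ModuleCat.of A (CDC.XM e σ)) := (IsProjective.iff_projective _).1 hXp
  have hS2 := LinearMap.shortExact_shortComplexKer hv
  have hK2 : HasProjectiveDimensionLT (ModuleCat.of A (LinearMap.ker v)) 1 :=
    (hS2.hasProjectiveDimensionLT_X₃_iff 0 hXp').1 hK1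
  have hK3 : Projective (ModuleCat.of A (LinearMap.ker v)) := projective_iff_hasProjectiveDimensionLT_one.2 hK2
  have hK4 : Module.Projective A (LinearMap.ker v) := (IsProjective.iff_projective _).2 hK3
  have hf : ∀ t : Fin r, Module.Finite k (CDC.Le (e (σ t))) := fun t => res_finLe _
  have hXf : Module.Finite k (CDC.XM e σ) := Module.Finite.pi
  have hKf : Module.Finite k (LinearMap.ker v) :=
    Module.Finite.of_injective ((LinearMap.ker v).subtype.restrictScalars k) Subtype.val_injective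
  obtain ⟨s, τ, ⟨ψ⟩⟩ := CDC.KS k e h.idem h.sum (fun i => el_loc h i) (LinearMap.ker v)
  refine ⟨fun j => (if j = i then 1 else 0) - (∑ t : Fin r, if σ t = j then (1 : ℤ) else 0) +
    ∑ t : Fin s, if τ t = j then (1 : ℤ) else 0, ?_, fun l => ?_⟩
  · have h1 : (∑ t : Fin r, if σ t = i then (1 : ℤ) else 0) = 0 :=
      Finset.sum_eq_zero fun t _ => if_neg (hσ t)
    have h2 : 0 ≤ ∑ t : Fin s, if τ t = i then (1 : ℤ) else 0 :=
      Finset.sum_nonneg fun t _ => by split_ifs <;> norm_num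
    simp only [if_true, h1]
    linarith
  · have l1 := CDC.len_add k (h.idem l) (M := CDC.Le (e i)) I
    have l2 := CDC.len_add k (h.idem l) (M := CDC.XM e σ) (LinearMap.ker v)
    have l3 := CDC.len_congr k (e l) (v.quotKerEquivOfSurjective hv)
    have l4 := CDC.len_congr k (e l) ψ
    have l5 := res_lenXM h σ l
    have l6 := res_lenXM h τ l
    have l7 : CDC.len k (e l) (CDC.Le (e i)) = CDC.la k (e l) (e i) := CDC.len_Le k (e l) (e i) (h.idem i)
    have l8 := len_simple h (CDC.Le (e i) ⧸ I) hI i y' hy' l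
    have e1 : ∀ j, ((if j = i then (1 : ℤ) else 0) - (∑ t : Fin r, if σ t = j then (1 : ℤ) else 0) +
        ∑ t : Fin s, if τ t = j then (1 : ℤ) else 0) * (CDC.la k (e l) (e j) : ℤ) =
        (if j = i then (CDC.la k (e l) (e j) : ℤ) else 0) -
        (∑ t : Fin r, if σ t = j then (1 : ℤ) else 0) * (CDC.la k (e l) (e j) : ℤ) +
        (∑ t : Fin s, if τ t = j then (1 : ℤ) else 0) * (CDC.la k (e l) (e j) : ℤ) := by
      intro j
      split_ifs <;> ring
    rw [Finset.sum_congr rfl fun j _ => e1 j, Finset.sum_add_distrib, Finset.sum_sub_distrib,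
      res_sum σ (fun j => (CDC.la k (e l) (e j) : ℤ)), res_sum τ (fun j => (CDC.la k (e l) (e j) : ℤ)),
      ← l5, ← l6, Finset.sum_ite_eq' Finset.univ i, if_pos (Finset.mem_univ i), ← l7, ← l4]
    have m1 : (CDC.len k (e l) (CDC.Le (e i)) : ℤ) = CDC.len k (e l) I + CDC.len k (e l) (CDC.Le (e i) ⧸ I) := by
      exact_mod_cast l1
    have m2 : (CDC.len k (e l) (CDC.XM e σ) : ℤ) = CDC.len k (e l) (LinearMap.ker v) + CDC.len k (e l) I := by
      rw [← l3]
      exact_mod_cast l2
    have m3 : (CDC.len k (e l) (CDC.Le (e i) ⧸ I) : ℤ) = if l = i then 1 else 0 := by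
      rw [l8]
      push_cast
      rfl
    rw [← m3]
    linarith

end Pool.Agent.CDN
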