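import Pool.Agent.Lib.MP_a20de0_al.CDN.TrBasic
import Pool.Agent.Lib.MP_a20de0_al.CDN.IsTrB

set_option autoImplicit false

/-! CDN-TrAdd.  Additivity (horseshoe).  Induction on `k`.  `k = 0` trivial.  `k + 1`: `(P, π, g)` for `N`, `(P', π', g')` for `L`.
`P'` is projective (`IsTr_proj`): `λ : P' → M` with `q λ = π'` (`Module.projective_lifting_property`).  `Π : P × P' → M`, `(x,y) ↦ ι π x + λ y` is onto.
`f λ - λ g'` has values in `ker q = range ι`, so it is `ι ∘ (P' → N)`, lift this to `ν : P' → P`.  `G (x,y) = (g x + ν y, g' y)`, `IsTr_block`.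
`Π G = f Π`.  The maps `ker π → ker Π`, `x ↦ (x,0)` and `ker Π → ker π'`, `(x,y) ↦ y` form a short exact sequence compatible with the
induced endomorphisms: induction hypothesis. -/

namespace Pool.Agent.CDN

theorem Tr_add {A : Type} [Ring A] (k : ℕ) : ∀ {N M L : Type} [AddCommGroup N] [Module A N] [AddCommGroup M]
    [Module A M] [AddCommGroup L] [Module A L] (ι : N →ₗ[A] M) (q : M →ₗ[A] L)
    (_ : Function.Injective ι) (_ : Function.Surjective q) (_ : LinearMap.range ι = LinearMap.ker q)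
    {fN : N →ₗ[A] N} {f : M →ₗ[A] M} {fL : L →ₗ[A] L}
    (_ : ∀ x, ι (fN x) = f (ι x)) (_ : ∀ x, q (f x) = fL (q x)) {s u : A ⧸ Com A},
    Tr k N fN s → Tr k L fL u → Tr k M f (s + u) := by
  induction k with
  | zero =>
    intro N M L _ _ _ _ _ _ ι q hι hq hex fN f fL _ _ s u hN hL
    obtain ⟨hN1, rfl⟩ := hN
    obtain ⟨hL1, rfl⟩ := hL
    refine ⟨⟨fun x y => ?_⟩, by rw [add_zero]⟩
    have hz : ∀ z : M, z = 0 := fun z => by
      have h1 : z ∈ LinearMap.ker q := LinearMap.mem_ker.2 (Subsingleton.elim _ _)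
      rw [← hex] at h1
      obtain ⟨n, rfl⟩ := h1
      rw [Subsingleton.elim n 0, map_zero]
    rw [hz x, hz y]
  | succ k ih =>
    intro N M L _ _ _ _ _ _ ι q hι hq hex fN f fL hf hfL s u hN hL
    obtain ⟨P, iP1, iP2, π, g, hπ, tP, s', hsurj, hP, hT, rfl⟩ := hN
    obtain ⟨P', iP1', iP2', π', g', hπ', tP', u', hsurj', hP', hT', rfl⟩ := hL
    have hproj : Module.Projective A P' := (IsTr_proj hP').1
    have hqι : ∀ n, q (ι n) = 0 := fun n => by
      have h1 : ι n ∈ LinearMap.range ι := ⟨n, rfl⟩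
      rw [hex] at h1
      exact h1
    have hmem : ∀ m, q m = 0 → ∃ n, ι n = m := fun m hm => by
      have h1 : m ∈ LinearMap.ker q := hm
      rw [← hex] at h1
      exact h1
    obtain ⟨l, hl⟩ := Module.projective_lifting_property q π' hq
    have hl' : ∀ y, q (l y) = π' y := fun y => LinearMap.congr_fun hl y
    have hδ : ∀ y, (f ∘ₗ l - l ∘ₗ g') y ∈ LinearMap.range ι := fun y => by
      rw [hex, LinearMap.mem_ker, LinearMap.sub_apply, LinearMap.comp_apply, LinearMap.comp_apply, map_sub, hfL, hl', hl', hπ', sub_self]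
    obtain ⟨δ, hδ'⟩ : ∃ δ : P' →ₗ[A] N, ∀ y, ι (δ y) = f (l y) - l (g' y) := by
      refine ⟨(LinearEquiv.ofInjective ι hι).symm.toLinearMap ∘ₗ (f ∘ₗ l - l ∘ₗ g').codRestrict (LinearMap.range ι) hδ, fun y => ?_⟩
      have h1 := congrArg Subtype.val ((LinearEquiv.ofInjective ι hι).apply_symm_apply
        ((f ∘ₗ l - l ∘ₗ g').codRestrict (LinearMap.range ι) hδ y))
      exact h1
    obtain ⟨ν, hν⟩ := Module.projective_lifting_property π δ hsurj
    have hν' : ∀ y, π (ν y) = δ y := fun y => LinearMap.congr_fun hν y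
    have hPi : ∀ z : P × P', (LinearMap.coprod (ι ∘ₗ π) l) z = ι (π z.1) + l z.2 := fun z => rfl
    have hG : ∀ z : P × P', (LinearMap.coprod (ι ∘ₗ π) l) ((LinearMap.prod (g ∘ₗ LinearMap.fst A P P' + ν ∘ₗ LinearMap.snd A P P')
        (g' ∘ₗ LinearMap.snd A P P')) z) = f ((LinearMap.coprod (ι ∘ₗ π) l) z) := fun z => by
      rw [hPi, hPi]
      change ι (π (g z.1 + ν z.2)) + l (g' z.2) = f (ι (π z.1) + l z.2)
      rw [map_add π, hπ, hν', map_add ι, hδ', hf, map_add f]
      abel
    refine ⟨P × P', inferInstance, inferInstance, LinearMap.coprod (ι ∘ₗ π) l,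
      LinearMap.prod (g ∘ₗ LinearMap.fst A P P' + ν ∘ₗ LinearMap.snd A P P') (g' ∘ₗ LinearMap.snd A P P'), hG, tP + tP', s' + u', ?_,
      IsTr_block ν hP hP', ?_, by abel⟩
    · intro m
      obtain ⟨y, hy⟩ := hsurj' (q m)
      obtain ⟨n, hn⟩ := hmem (m - l y) (by rw [map_sub, hl', hy, sub_self])
      obtain ⟨x, rfl⟩ := hsurj n
      exact ⟨(x, y), by rw [hPi, hn, sub_add_cancel]⟩
    · have hk1 : ∀ x : LinearMap.ker π, (LinearMap.coprod (ι ∘ₗ π) l) ((x : P), (0 : P')) = 0 := fun x => by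
        rw [hPi]
        change ι (π x) + l 0 = 0
        rw [LinearMap.mem_ker.1 x.2, map_zero, map_zero, add_zero]
      have hk2 : ∀ z : LinearMap.ker (LinearMap.coprod (ι ∘ₗ π) l), π' (z : P × P').2 = 0 := fun z => by
        have h1 : ι (π (z : P × P').1) + l (z : P × P').2 = 0 := LinearMap.mem_ker.1 z.2
        have h2 := congrArg q h1
        rw [map_add, hqι, zero_add, hl', map_zero] at h2
        exact h2
      let ι' : LinearMap.ker π →ₗ[A] LinearMap.ker (LinearMap.coprod (ι ∘ₗ π) l) :=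
        (LinearMap.inl A P P' ∘ₗ (LinearMap.ker π).subtype).codRestrict _ fun x => hk1 x
      let q' : LinearMap.ker (LinearMap.coprod (ι ∘ₗ π) l) →ₗ[A] LinearMap.ker π' :=
        (LinearMap.snd A P P' ∘ₗ (LinearMap.ker (LinearMap.coprod (ι ∘ₗ π) l)).subtype).codRestrict _ fun z => hk2 z
      refine ih ι' q' ?_ ?_ ?_ ?_ ?_ hT hT'
      · intro x y hxy
        have h1 := congrArg (fun z : LinearMap.ker (LinearMap.coprod (ι ∘ₗ π) l) => (z : P × P').1) hxy
        exact Subtype.ext h1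
      · rintro ⟨y, hy⟩
        obtain ⟨n, hn⟩ := hmem (l y) (by rw [hl']; exact hy)
        obtain ⟨x, rfl⟩ := hsurj n
        refine ⟨⟨(-x, y), ?_⟩, rfl⟩
        rw [LinearMap.mem_ker, hPi]
        change ι (π (-x)) + l y = 0
        rw [map_neg, map_neg, hn, neg_add_cancel]
      · ext z
        constructor
        · rintro ⟨x, rfl⟩
          rw [LinearMap.mem_ker]
          rfl
        · intro hz
          have h1 : (z : P × P').2 = 0 := congrArg Subtype.val (LinearMap.mem_ker.1 hz)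
          have h2 : ι (π (z : P × P').1) + l (z : P × P').2 = 0 := LinearMap.mem_ker.1 z.2
          rw [h1, map_zero, add_zero] at h2
          have h3 : π (z : P × P').1 = 0 := hι (by rw [h2, map_zero])
          exact ⟨⟨(z : P × P').1, h3⟩, Subtype.ext (Prod.ext rfl h1.symm)⟩
      · intro x
        refine Subtype.ext (Prod.ext ?_ ?_)
        · change g x = g x + ν 0
          rw [map_zero, add_zero]
        · change (0 : P') = g' 0
          rw [map_zero]
      · intro z
        rfl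

end Pool.Agent.CDN
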