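import Pool.Agent.Lib.MP_a20de0_al.CDN.IsTrA

/-! CDN-TrBasic.  Elementary facts on `Tr`.  `Tr_congr`: for `k + 1` compose `π` with `φ`, `ker (φ ∘ π) = ker π`, induction.
`Tr_mono`: induction; `k = 0`: take `P = PUnit` (or any zero module), `IsTr_zero`.  `Tr_of_proj`: `π = id`. -/

set_option autoImplicit false

namespace Pool.Agent.CDN

variable {A : Type} [Ring A]

theorem Tr_congr (k : ℕ) : ∀ {M M' : Type} [AddCommGroup M] [Module A M] [AddCommGroup M'] [Module A M']
    (φ : M ≃ₗ[A] M') {f : M →ₗ[A] M} {f' : M' →ₗ[A] M'} (_ : ∀ x, φ (f x) = f' (φ x)) {t : A ⧸ Com A},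
    Tr k M f t → Tr k M' f' t := by
  induction k with
  | zero =>
    intro M M' _ _ _ _ φ f f' _ t h
    have h1 : Subsingleton M := h.1
    exact ⟨φ.symm.injective.subsingleton, h.2⟩
  | succ k ih =>
    intro M M' _ _ _ _ φ f f' hφ t h
    obtain ⟨P, i1, i2, π, g, h1, tP, s, hsurj, hP, hT, rfl⟩ := h
    have h2 : ∀ x, (φ.toLinearMap ∘ₗ π) (g x) = f' ((φ.toLinearMap ∘ₗ π) x) := by
      intro x
      simp only [LinearMap.comp_apply, LinearEquiv.coe_coe]
      rw [h1, hφ]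
    refine ⟨P, i1, i2, φ.toLinearMap ∘ₗ π, g, h2, tP, s, ?_, hP, ?_, rfl⟩
    · exact φ.surjective.comp hsurj
    · refine ih (LinearEquiv.ofEq _ _ (LinearEquiv.ker_comp φ π).symm) ?_ hT
      intro x
      exact Subtype.ext rfl

private theorem Tr_succ (k : ℕ) : ∀ {M : Type} [AddCommGroup M] [Module A M] {f : M →ₗ[A] M} {t : A ⧸ Com A},
    Tr k M f t → Tr (k + 1) M f t := by
  induction k with
  | zero =>
    intro M _ _ f t h
    obtain ⟨hM, rfl⟩ := h
    have hp : Module.Projective A PUnit.{1} := inferInstance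
    have hf : Module.Finite A PUnit.{1} := inferInstance
    refine ⟨PUnit.{1}, inferInstance, inferInstance, 0, 0, fun x => Subsingleton.elim _ _, 0, 0,
      fun y => ⟨0, Subsingleton.elim _ _⟩, IsTr_zero, ⟨inferInstance, rfl⟩, by rw [sub_zero]⟩
  | succ k ih =>
    intro M _ _ f t h
    obtain ⟨P, i1, i2, π, g, h1, tP, s, hsurj, hP, hT, rfl⟩ := h
    exact ⟨P, i1, i2, π, g, h1, tP, s, hsurj, hP, ih hT, rfl⟩

theorem Tr_mono {k l : ℕ} (hkl : k ≤ l) {M : Type} [AddCommGroup M] [Module A M] {f : M →ₗ[A] M} {t : A ⧸ Com A}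
    (h : Tr k M f t) : Tr l M f t := by
  induction l, hkl using Nat.le_induction with
  | base => exact h
  | succ n _ ih => exact Tr_succ n ih

theorem Tr_of_proj {P : Type} [AddCommGroup P] [Module A P] {g : P →ₗ[A] P} {t : A ⧸ Com A}
    (h : IsTr P g t) : Tr 1 P g t := by
  refine ⟨P, inferInstance, inferInstance, LinearMap.id, g, fun _ => rfl, t, 0, fun y => ⟨y, rfl⟩, h, ⟨?_, rfl⟩,
    by rw [sub_zero]⟩
  rw [LinearMap.ker_id]
  infer_instance

end Pool.Agent.CDN
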