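import Pool.Agent.Lib.MP_a20de0_al.CDN.TrAdd

set_option autoImplicit false

/-! CDN-TrUni.  Uniqueness of the trace.  Induction on `k`.  `k = 0` trivial.  `k = 1`: `π, π'` are bijective (the kernels are zero), so
`P ≃ M ≃ P'` compatible with the endomorphisms, `IsTr_congr`, `IsTr_unique`.
`k + 1`, `k ≥ 1`: `(P, π, g, tP, s)` and `(P', π', g', tP', s')`.  `Q = {(x,y) ∈ P × P' | π x = π' y}` with `h = (g, g')`.
`0 → ker π' → Q → P → 0` and `0 → ker π → Q → P' → 0` (both projections are onto): `Tr_add k` with `Tr_mono (Tr_of_proj ..)` gives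
`Tr k Q h (s' + tP)` and `Tr k Q h (s + tP')`; the induction hypothesis for `Q` gives `s' + tP = s + tP'`. -/

namespace Pool.Agent.CDN

/-- the pullback -/
private def pbQ {A : Type} [Ring A] {P P' M : Type} [AddCommGroup P] [Module A P] [AddCommGroup P'] [Module A P']
    [AddCommGroup M] [Module A M] (π : P →ₗ[A] M) (π' : P' →ₗ[A] M) : Submodule A (P × P') :=
  LinearMap.ker (π ∘ₗ LinearMap.fst A P P' - π' ∘ₗ LinearMap.snd A P P')

private theorem mem_pbQ {A : Type} [Ring A] {P P' M : Type} [AddCommGroup P] [Module A P] [AddCommGroup P'] [Module A P']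
    [AddCommGroup M] [Module A M] (π : P →ₗ[A] M) (π' : P' →ₗ[A] M) (x : P × P') : x ∈ pbQ π π' ↔ π x.1 = π' x.2 := by
  rw [pbQ, LinearMap.mem_ker]
  simp [sub_eq_zero]

private def pbH {A : Type} [Ring A] {P P' M : Type} [AddCommGroup P] [Module A P] [AddCommGroup P'] [Module A P']
    [AddCommGroup M] [Module A M] (π : P →ₗ[A] M) (π' : P' →ₗ[A] M) (g : P →ₗ[A] P) (g' : P' →ₗ[A] P') (f : M →ₗ[A] M)
    (h : ∀ x, π (g x) = f (π x)) (h' : ∀ x, π' (g' x) = f (π' x)) : pbQ π π' →ₗ[A] pbQ π π' :=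
  (LinearMap.prodMap g g').restrict (fun x hx => by
    rw [mem_pbQ] at hx ⊢
    simp only [LinearMap.prodMap_apply]
    rw [h, h', hx])

private theorem pb_add {A : Type} [Ring A] (k : ℕ) {P P' M : Type} [AddCommGroup P] [Module A P] [AddCommGroup P'] [Module A P']
    [AddCommGroup M] [Module A M] (π : P →ₗ[A] M) (π' : P' →ₗ[A] M) (g : P →ₗ[A] P) (g' : P' →ₗ[A] P') (f : M →ₗ[A] M)
    (h : ∀ x, π (g x) = f (π x)) (h' : ∀ x, π' (g' x) = f (π' x)) (hπ : Function.Surjective π) (hπ' : Function.Surjective π')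
    {tP tP' s s' : A ⧸ Com A} (hP : IsTr P g tP) (hP' : IsTr P' g' tP')
    (hs : Tr (k + 1) (LinearMap.ker π) (kerRes π g f h) s) (hs' : Tr (k + 1) (LinearMap.ker π') (kerRes π' g' f h') s') :
    Tr (k + 1) (pbQ π π') (pbH π π' g g' f h h') (s' + tP) ∧ Tr (k + 1) (pbQ π π') (pbH π π' g g' f h h') (s + tP') := by
  have hP1 : Tr (k + 1) P g tP := Tr_mono (by omega) (Tr_of_proj hP)
  have hP1' : Tr (k + 1) P' g' tP' := Tr_mono (by omega) (Tr_of_proj hP')
  constructor
  · let ι : LinearMap.ker π' →ₗ[A] pbQ π π' := LinearMap.codRestrict (pbQ π π') (LinearMap.inr A P P' ∘ₗ (LinearMap.ker π').subtype)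
      (fun y => by
        rw [mem_pbQ]
        have hy : π' y = 0 := y.2
        simp [hy])
    let q : pbQ π π' →ₗ[A] P := LinearMap.fst A P P' ∘ₗ (pbQ π π').subtype
    have hι : ∀ y, (ι y : P × P') = (0, (y : P')) := fun y => rfl
    have hq : ∀ z, q z = (z : P × P').1 := fun z => rfl
    refine Tr_add (k + 1) ι q ?_ ?_ ?_ (fN := kerRes π' g' f h') (f := pbH π π' g g' f h h') (fL := g) ?_ ?_ hs' hP1
    · intro y y' he
      have he' := congrArg (fun z : pbQ π π' => (z : P × P').2) he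
      exact Subtype.ext he'
    · intro x
      obtain ⟨y, hy⟩ := hπ' (π x)
      exact ⟨⟨(x, y), (mem_pbQ π π' _).2 hy.symm⟩, rfl⟩
    · ext z
      rw [LinearMap.mem_range, LinearMap.mem_ker, hq]
      constructor
      · rintro ⟨y, rfl⟩
        rfl
      · intro hz
        have hz2 := (mem_pbQ π π' _).1 z.2
        rw [hz, map_zero] at hz2
        refine ⟨⟨(z : P × P').2, hz2.symm⟩, Subtype.ext ?_⟩
        rw [hι]
        exact Prod.ext hz.symm rfl
    · intro y
      apply Subtype.ext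
      refine Prod.ext ?_ rfl
      show (0 : P) = g 0
      rw [map_zero]
    · intro z
      rfl
  · let ι : LinearMap.ker π →ₗ[A] pbQ π π' := LinearMap.codRestrict (pbQ π π') (LinearMap.inl A P P' ∘ₗ (LinearMap.ker π).subtype)
      (fun y => by
        rw [mem_pbQ]
        have hy : π y = 0 := y.2
        simp [hy])
    let q : pbQ π π' →ₗ[A] P' := LinearMap.snd A P P' ∘ₗ (pbQ π π').subtype
    have hι : ∀ y, (ι y : P × P') = ((y : P), 0) := fun y => rfl
    have hq : ∀ z, q z = (z : P × P').2 := fun z => rfl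
    refine Tr_add (k + 1) ι q ?_ ?_ ?_ (fN := kerRes π g f h) (f := pbH π π' g g' f h h') (fL := g') ?_ ?_ hs hP1'
    · intro y y' he
      have he' := congrArg (fun z : pbQ π π' => (z : P × P').1) he
      exact Subtype.ext he'
    · intro y
      obtain ⟨x, hx⟩ := hπ (π' y)
      exact ⟨⟨(x, y), (mem_pbQ π π' _).2 hx⟩, rfl⟩
    · ext z
      rw [LinearMap.mem_range, LinearMap.mem_ker, hq]
      constructor
      · rintro ⟨y, rfl⟩
        rfl
      · intro hz
        have hz2 := (mem_pbQ π π' _).1 z.2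
        rw [hz, map_zero] at hz2
        refine ⟨⟨(z : P × P').1, hz2⟩, Subtype.ext ?_⟩
        rw [hι]
        exact Prod.ext rfl hz.symm
    · intro y
      apply Subtype.ext
      refine Prod.ext rfl ?_
      show (0 : P') = g' 0
      rw [map_zero]
    · intro z
      rfl

private theorem Tr_unique_one {A : Type} [Ring A] {M : Type} [AddCommGroup M] [Module A M] {f : M →ₗ[A] M}
    {t t' : A ⧸ Com A} (H : Tr 1 M f t) (H' : Tr 1 M f t') : t = t' := by
  obtain ⟨P, _, _, π, g, h, tP, s, hπ, hP, ⟨hK, hs⟩, rfl⟩ := H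
  obtain ⟨P', _, _, π', g', h', tP', s', hπ', hP', ⟨hK', hs'⟩, rfl⟩ := H'
  have hb : Function.Bijective π := ⟨by
    rw [← LinearMap.ker_eq_bot]
    exact (Submodule.subsingleton_iff_eq_bot).1 hK, hπ⟩
  have hb' : Function.Bijective π' := ⟨by
    rw [← LinearMap.ker_eq_bot]
    exact (Submodule.subsingleton_iff_eq_bot).1 hK', hπ'⟩
  let e := LinearEquiv.ofBijective π hb
  let e' := LinearEquiv.ofBijective π' hb'
  have h1 : IsTr P' g' tP := by
    refine IsTr_congr (e.trans e'.symm) (g := g) (g' := g') (fun x => ?_) hP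
    rw [LinearEquiv.trans_apply, LinearEquiv.trans_apply, LinearEquiv.symm_apply_eq]
    show π (g x) = π' (g' (e'.symm (e x)))
    rw [h, h']
    congr 1
    exact (e'.apply_symm_apply (e x)).symm
  rw [hs, hs', IsTr_unique h1 hP']

theorem Tr_unique {A : Type} [Ring A] (k : ℕ) : ∀ {M : Type} [AddCommGroup M] [Module A M] {f : M →ₗ[A] M}
    {t t' : A ⧸ Com A}, Tr k M f t → Tr k M f t' → t = t' := by
  induction k with
  | zero =>
    intro M _ _ f t t' H H'
    rw [H.2, H'.2]
  | succ k ih =>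
    intro M _ _ f t t' H H'
    rcases k with _ | k
    · exact Tr_unique_one H H'
    · obtain ⟨P, _, _, π, g, h, tP, s, hπ, hP, hs, rfl⟩ := H
      obtain ⟨P', _, _, π', g', h', tP', s', hπ', hP', hs', rfl⟩ := H'
      obtain ⟨h1, h2⟩ := pb_add k π π' g g' f h h' hπ hπ' hP hP' hs hs'
      have h3 := ih h1 h2
      rw [sub_eq_sub_iff_add_eq_add, add_comm tP s', h3, add_comm]

end Pool.Agent.CDN
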